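import Pool.Agent.helper70.M8.Base

set_option autoImplicit false

/-!
# Certificates with a chart for every box: data and combinatorial part

Second generation of the certificates of `M8`: the boxes of a column may use different charts
`(t,u) ↦ (x0 + x1 t, y0 + y1 t, al u + be(t))` with a polynomial `be` of any degree, `t ∈ [0,1]`.
Consecutive boxes either have the same chart and a common level, or they are sign-definite and
overlap.
-/

namespace Oct.N

open Oct

/-- `l[0] + l[1] t + l[2] t² + ...` -/
def evI (l : List ℤ) (t : ℤ) : ℤ := l.foldr (fun c r => c + t * r) 0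

/-- chart `(t,u) ↦ (x0 + x1 t, y0 + y1 t, al u + be(t))` -/
structure Chart where
  x0 : ℤ
  x1 : ℤ
  y0 : ℤ
  y1 : ℤ
  al : ℤ
  be : List ℤ
deriving DecidableEq

def Chart.beZ (c : Chart) (t : ℤ) : ℤ := evI c.be t
def Chart.vxZ (c : Chart) (t : ℤ) : ℤ := c.x0 + c.x1 * t
def Chart.vyZ (c : Chart) (t : ℤ) : ℤ := c.y0 + c.y1 * t

/-- a box `[c - s, c + s]` in the coordinate `u` of its own chart (`al`, `be`).
`ty = 0`: sign-definite; `ty = 1`: monotone in `u`, opposite signs below and above;
`ty = 2`: fold which opens to the right; `ty = 3`: fold which opens to the left.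
`sl`, `sh`: sign of `F` on the lower and the upper side (`true` = positive).
`lab`: label of the region (`ty = 0`) or of the oval (`ty > 0`).
`rp0`, ...: ranks, for the two lifts to the sphere, of the positive part, negative part, zero
set. -/
structure Box where
  al : ℤ
  be : List ℤ
  c : ℤ
  s : ℤ
  ty : ℕ
  sl : Bool
  sh : Bool
  lab : ℤ
  rp0 : ℕ
  rn0 : ℕ
  rz0 : ℕ
  rp1 : ℕ
  rn1 : ℕ
  rz1 : ℕ
deriving DecidableEq

def Box.lo (b : Box) : ℤ := b.c - b.s
def Box.hi (b : Box) : ℤ := b.c + b.s

/-- height (third coordinate) of the level `u` for `t = 0, 1` -/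
def Box.lvZ (b : Box) (u t : ℤ) : ℤ := b.al * u + evI b.be t

/-- default box -/
def box0 : Box := ⟨0, [], 0, 0, 0, true, true, 0, 0, 0, 0, 0, 0, 0⟩

/-- a column: directions `(x0 + x1 t, y0 + y1 t)`, `t ∈ [0,1]`, boxes from below to above, and
the ranks of the unbounded cells (top and bottom, two lifts) -/
structure Column where
  x0 : ℤ
  x1 : ℤ
  y0 : ℤ
  y1 : ℤ
  bx : List Box
  rt0 : ℕ
  rt1 : ℕ
  rb0 : ℕ
  rb1 : ℕ
deriving DecidableEq

/-- the column is over `t ∈ [0,1]` -/
def Column.a (_ : Column) : ℤ := 0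
def Column.b (_ : Column) : ℤ := 1

/-- the chart of the directions, third coordinate `u` -/
def Column.ch (c : Column) : Chart := ⟨c.x0, c.x1, c.y0, c.y1, 1, []⟩

/-- the chart of a box -/
def Column.cb (c : Column) (b : Box) : Chart := ⟨c.x0, c.x1, c.y0, c.y1, b.al, b.be⟩

def Column.box (c : Column) (j : ℕ) : Box := c.bx.getD j box0

/-- lowest box -/
def Column.fb (c : Column) : Box := c.box 0
/-- highest box -/
def Column.lb (c : Column) : Box := c.box (c.bx.length - 1)

/-- certificate: columns in the order of the pencil, parents of the ovals `1..m` (`0` = outermost;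
`par[i-1]` is the parent of oval `i`), label of the region of the pole `(0:0:1)`, sign of `F` on
the outermost region, ranks of the poles -/
structure Cert where
  cols : List Column
  par : List ℕ
  pl : ℤ
  s0 : Bool
  rp0 : ℕ
  rp1 : ℕ

/-- label of the positive (`s = true`) or negative part of a box (lift 0) -/
def regLab (par : List ℕ) (s0 : Bool) (b : Box) (s : Bool) : ℤ :=
  if b.ty = 0 then b.lab else if sgnR par s0 b.lab == s then b.lab else up par b.lab

/-- segment of a box on the side `t` of its column (`right = true`: `t = 1`), heights multiplied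
by `m` -/
def segOf (par : List ℕ) (s0 : Bool) (t m : ℤ) (right : Bool) (b : Box) : Seg :=
  { lo := m * b.lvZ b.lo t, hi := m * b.lvZ b.hi t
    df := b.ty == 0 || (if right then b.ty == 3 else b.ty == 2)
    mo := b.ty == 1
    sl := b.sl, sh := b.sh
    lp := regLab par s0 b true, ln := regLab par s0 b false, lz := b.lab
    rp0 := b.rp0, rn0 := b.rn0, rz0 := b.rz0, rp1 := b.rp1, rn1 := b.rn1, rz1 := b.rz1 }

/-- the side `t` of the column, heights multiplied by `m` -/
def edgeOf (par : List ℕ) (s0 : Bool) (c : Column) (t m : ℤ) (right : Bool) : Edge :=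
  { lo := m * c.fb.lvZ c.fb.lo t, hi := m * c.lb.lvZ c.lb.hi t
    segs := c.bx.map (segOf par s0 t m right)
    rt0 := c.rt0, rt1 := c.rt1, rb0 := c.rb0, rb1 := c.rb1 }

def Column.scal (c c' : Column) : ℤ × ℤ :=
  Oct.scal (c.ch.vxZ c.b) (c.ch.vyZ c.b) (c'.ch.vxZ c'.a) (c'.ch.vyZ c'.a)

/-- scaling at the seam: last column and antipode of the first column -/
def Column.scalS (c c' : Column) : ℤ × ℤ :=
  Oct.scal (c.ch.vxZ c.b) (c.ch.vyZ c.b) (-c'.ch.vxZ c'.a) (-c'.ch.vyZ c'.a)

def Cert.m (ct : Cert) : ℕ := ct.par.length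
/-- sign of `F` at the poles -/
def Cert.sp (ct : Cert) : Bool := sgnR ct.par ct.s0 ct.pl

/-- default column -/
def col0 : Column := ⟨0, 0, 0, 0, [], 0, 0, 0, 0⟩

def Cert.col (ct : Cert) (i : ℕ) : Column := ct.cols.getD i col0
def Cert.n (ct : Cert) : ℕ := ct.cols.length

/-- right side of column `i`, scaled for the comparison with the next column -/
def Cert.eR (ct : Cert) (i : ℕ) : Edge :=
  if i + 1 < ct.n then
    edgeOf ct.par ct.s0 (ct.col i) (ct.col i).b ((ct.col i).scal (ct.col (i + 1))).1 true
  else edgeOf ct.par ct.s0 (ct.col i) (ct.col i).b ((ct.col i).scalS (ct.col 0)).1 true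

/-- left side of column `i`, scaled for the comparison with the previous column -/
def Cert.eL (ct : Cert) (i : ℕ) : Edge :=
  match i with
  | 0 => edgeOf ct.par ct.s0 (ct.col 0) (ct.col 0).a ((ct.col (ct.n - 1)).scalS (ct.col 0)).2 false
  | i + 1 => edgeOf ct.par ct.s0 (ct.col (i + 1)) (ct.col (i + 1)).a
      ((ct.col i).scal (ct.col (i + 1))).2 false

/-- side of the next column -/
def Cert.eN (ct : Cert) (i : ℕ) : Edge := if i + 1 < ct.n then ct.eL (i + 1) else (ct.eL 0).flip

/-- side of the previous column -/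
def Cert.eP (ct : Cert) (i : ℕ) : Edge :=
  match i with
  | 0 => (ct.eR (ct.n - 1)).flip
  | i + 1 => ct.eR i

def Box.rk (b : Box) (l : Bool) (s : S3) : ℕ :=
  match l, s with
  | false, S3.p => b.rp0
  | false, S3.n => b.rn0
  | false, S3.z => b.rz0
  | true, S3.p => b.rp1
  | true, S3.n => b.rn1
  | true, S3.z => b.rz1

def Column.rt (c : Column) (l : Bool) : ℕ := if l then c.rt1 else c.rt0
def Column.rb (c : Column) (l : Bool) : ℕ := if l then c.rb1 else c.rb0

/-- label of the part `s` of a box (lift 0) -/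
def Cert.bl (ct : Cert) (b : Box) (s : S3) : ℤ :=
  match s with
  | S3.p => regLab ct.par ct.s0 b true
  | S3.n => regLab ct.par ct.s0 b false
  | S3.z => b.lab

/-- label of the part `s` of a cell -/
def Cert.clab (ct : Cert) (c : Cell) (s : S3) : ℤ :=
  match c with
  | Cell.box l i j => ls l (ct.bl ((ct.col i).box j) s)
  | Cell.top l _ => ls l ct.pl
  | Cell.bot l _ => ls l (-ct.pl)
  | Cell.pole l => ls l ct.pl

/-- rank of the part `s` of a cell -/
def Cert.crk (ct : Cert) (c : Cell) (s : S3) : ℕ :=
  match c with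
  | Cell.box l i j => ((ct.col i).box j).rk l s
  | Cell.top l i => (ct.col i).rt l
  | Cell.bot l i => (ct.col i).rb l
  | Cell.pole l => if l then ct.rp1 else ct.rp0

end Oct.N
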