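import Pool.Agent.helper70.M8.ChkC
import Pool.Agent.helper70.M10.Base

set_option autoImplicit false

/-!
# Combinatorial checker for certificates with a chart for every box
-/

namespace Oct.N

open Oct

/-- label of the positive or negative part of a box -/
def regF (g : Gl) (b : Box) (s : Bool) : ℤ :=
  match b.ty with
  | 0 => b.lab
  | _ => if sgF g.ST b.lab == s then b.lab else upF g.PT b.lab

def blF (g : Gl) (b : Box) (s : S3) : ℤ :=
  match s with
  | S3.p => regF g b true
  | S3.n => regF g b false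
  | S3.z => b.lab

/-- `evI` for `t = 0`, `t = 1` -/
def evS (l : List ℤ) (right : Bool) : ℤ := if right then l.foldr (· + ·) 0 else l.headD 0

/-- segment of a box on the side `t = 0` or `t = 1` -/
def segF (g : Gl) (m : ℤ) (right : Bool) (b : Box) : Seg :=
  let e := evS b.be right
  { lo := m * (b.al * b.lo + e), hi := m * (b.al * b.hi + e)
    df := Nat.beq b.ty 0 || (if right then Nat.beq b.ty 3 else Nat.beq b.ty 2)
    mo := Nat.beq b.ty 1
    sl := b.sl, sh := b.sh
    lp := regF g b true, ln := regF g b false, lz := b.lab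
    rp0 := b.rp0, rn0 := b.rn0, rz0 := b.rz0, rp1 := b.rp1, rn1 := b.rn1, rz1 := b.rz1 }

/-- segments of a side of a column -/
def segsF (g : Gl) (c : Column) (m : ℤ) (right : Bool) : List Seg :=
  c.bx.map (segF g m right)

/-- lowest and highest point of a side -/
def loE (L : List Seg) : ℤ := match L.head? with | some e => e.lo | none => 0
def hiE (L : List Seg) : ℤ := match L.getLast? with | some e => e.hi | none => 0

/-- the two sides `E`, `E'` of a ray fit together -/
def glueF (g : Gl) (E E' : List Seg) : Bool :=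
  let l := loE E
  let h := hiE E
  let l' := loE E'
  let h' := hiE E'
  ltZ l h' && ltZ l' h &&
  E'.all (fun e => (ltZ e.hi h || eqZ (lbS e g.sp) g.pl) && (ltZ l e.lo || eqZ (lbS e g.sp) (negZ g.pl))) &&
  E.all (fun e => (ltZ e.hi h' || eqZ (lbS e g.sp) g.pl) && (ltZ l' e.lo || eqZ (lbS e g.sp) (negZ g.pl))) &&
  E.all (fun e => E'.all (fun e' => okP e e'))

/-- rank condition for one part of a box -/
def rkF (rb rt : ℕ) (prev next : Option Box) (b : Box) (eR eL : Seg) (LN LP : List Seg) (l : Bool)
    (s : S3) : Bool :=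
  let r := b.rk l s
  Nat.beq r 0 ||
  (decide (s = S3.of b.sl) && (match prev with
    | none => Nat.blt rb r
    | some b' => Nat.blt (b'.rk l s) r)) ||
  (decide (s = S3.of b.sh) && (match next with
    | none => Nat.blt rt r
    | some b' => Nat.blt (b'.rk l s) r)) ||
  nbF eR LN true l s r || nbF eL LP false l s r

def rkBox (rb0 rb1 rt0 rt1 : ℕ) (prev next : Option Box) (b : Box) (eR eL : Seg)
    (LN LP : List Seg) : Bool :=
  match b.ty with
  | 0 => rkF rb0 rt0 prev next b eR eL LN LP false (S3.of b.sl) &&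
      rkF rb1 rt1 prev next b eR eL LN LP true (S3.of b.sl)
  | _ => rkF rb0 rt0 prev next b eR eL LN LP false S3.p &&
      rkF rb1 rt1 prev next b eR eL LN LP true S3.p &&
      rkF rb0 rt0 prev next b eR eL LN LP false S3.n &&
      rkF rb1 rt1 prev next b eR eL LN LP true S3.n &&
      rkF rb0 rt0 prev next b eR eL LN LP false S3.z &&
      rkF rb1 rt1 prev next b eR eL LN LP true S3.z

/-- ranks of all the boxes of a column; `EN`, `EP`: segments of the next and previous column which
are not yet passed -/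
def rkCol (rb0 rb1 rt0 rt1 : ℕ) : Option Box → List Box → List Seg → List Seg → List Seg →
    List Seg → Bool
  | prev, b :: bs, eR :: ER, eL :: EL, EN, EP =>
      let DN := EN.dropWhile (fun e => ltZ e.hi eR.lo)
      let DP := EP.dropWhile (fun e => ltZ e.hi eL.lo)
      rkBox rb0 rb1 rt0 rt1 prev bs.head? b eR eL (DN.takeWhile (fun e => leZ e.lo eR.hi))
        (DP.takeWhile (fun e => leZ e.lo eL.hi)) &&
      rkCol rb0 rb1 rt0 rt1 (some b) bs ER EL DN DP
  | _, [], _, _, _, _ => true
  | _, _, _, _, _, _ => false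

/-- conditions for a column `c` with its neighbours `p` (left) and `q` (right) -/
def chk3 (g : Gl) (p c q : Column) : Bool :=
  let s := c.scal q
  let s' := p.scal c
  let ER := segsF g c s.1 true
  let EN := segsF g q s.2 false
  let EL := segsF g c s'.2 false
  let EP := segsF g p s'.1 true
  chainF s (c.ch.vxZ c.b) (c.ch.vyZ c.b) (q.ch.vxZ q.a) (q.ch.vyZ q.a) && glueF g ER EN &&
  ltZ 0 s'.1 && ltZ 0 s'.2 && rkCol c.rb0 c.rb1 c.rt0 c.rt1 none c.bx ER EL EN EP

/-- conditions for the first column `c` (right neighbour `q`, last column `z`) -/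
def chkFirst (g : Gl) (z c q : Column) : Bool :=
  let s := c.scal q
  let s' := z.scalS c
  let ER := segsF g c s.1 true
  let EN := segsF g q s.2 false
  let EL := segsF g c s'.2 false
  let EP := flipF (segsF g z s'.1 true)
  chainF s (c.ch.vxZ c.b) (c.ch.vyZ c.b) (q.ch.vxZ q.a) (q.ch.vyZ q.a) && glueF g ER EN &&
  decide (c.ch.vyZ c.a = 0) && ltZ (c.ch.vxZ c.a) 0 && ltZ 0 s'.1 && ltZ 0 s'.2 &&
  rkCol c.rb0 c.rb1 c.rt0 c.rt1 none c.bx ER EL EN EP

/-- conditions for the last column `c` (left neighbour `p`, first column `f`) -/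
def chkLast (g : Gl) (p c f : Column) : Bool :=
  let s := c.scalS f
  let s' := p.scal c
  let ER := segsF g c s.1 true
  let EN := flipF (segsF g f s.2 false)
  let EL := segsF g c s'.2 false
  let EP := segsF g p s'.1 true
  glueF g ER EN && decide (c.ch.vyZ c.b = 0) && ltZ 0 (c.ch.vxZ c.b) && ltZ 0 s.1 && ltZ 0 s.2 &&
  ltZ 0 s'.1 && ltZ 0 s'.2 &&
  rkCol c.rb0 c.rb1 c.rt0 c.rt1 none c.bx ER EL EN EP

/-- all the columns of the list but the last one; `p` = column before the list -/
def chkAll (g : Gl) : Column → List Column → Bool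
  | p, c :: q :: L => chk3 g p c q && chkAll g c (q :: L)
  | _, _ => true

/-- equality of lists of integers -/
def eqL : List ℤ → List ℤ → Bool
  | [], [] => true
  | a :: l, b :: m => eqZ a b && eqL l m
  | _, _ => false

/-- `l - m` (shorter list completed by zeros) -/
def subL : List ℤ → List ℤ → List ℤ
  | l, [] => l
  | [], b :: m => negZ b :: subL [] m
  | a :: l, b :: m => (a - b) :: subL l m

/-- lower and upper bound of a polynomial on `[0,1]`: sum of the negative (positive)
coefficients, and the constant term -/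
def negS : List ℤ → ℤ
  | [] => 0
  | c :: l => (if ltZ c 0 then c else 0) + negS l
def posS : List ℤ → ℤ
  | [] => 0
  | c :: l => (if ltZ 0 c then c else 0) + posS l
def lowP (l : List ℤ) : ℤ := match l with | [] => 0 | c :: l => c + negS l
def uppP (l : List ℤ) : ℤ := match l with | [] => 0 | c :: l => c + posS l

/-- the same chart and a common level -/
def sameF (b b' : Box) : Bool := eqZ b.al b'.al && eqZ b.hi b'.lo && eqL b.be b'.be

/-- overlap of sign-definite boxes -/
def juncF (b b' : Box) : Bool :=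
  let d := subL b'.be b.be
  let l := lowP d
  let u := uppP d
  Nat.beq b.ty 0 && Nat.beq b'.ty 0 &&
  ltZ (b.al * b.lo) (b'.al * b'.lo + l) && leZ (b'.al * b'.lo + u) (b.al * b.hi) &&
  ltZ (b.al * b.hi) (b'.al * b'.hi + l)

/-- vertical neighbours; `pj`: the previous step was a junction -/
def vertF (g : Gl) : Bool → List Box → Bool
  | pj, b :: b' :: L => (b.sh == b'.sl) && eqZ (regF g b b.sh) (regF g b' b.sh) &&
      (if sameF b b' then vertF g false (b' :: L)
       else !pj && juncF b b' && vertF g true (b' :: L))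
  | _, _ => true

/-- conditions for one column -/
def colC (g : Gl) (c : Column) : Bool :=
  ltZ 0 (c.x1 * c.y0 - c.x0 * c.y1) &&
  leZ 0 (c.ch.vyZ c.a) && leZ 0 (c.ch.vyZ c.b) &&
  c.bx.all (fun b => ltZ 0 b.s && ltZ 0 b.al && Nat.ble b.lab.natAbs g.par.length &&
    (Nat.beq b.ty 0 || !(eqZ b.lab 0))) &&
  vertF g false c.bx &&
  (match c.bx.head? with
    | none => false
    | some b => (b.sl == g.sp) && eqZ (regF g b g.sp) (negZ g.pl) &&
      (Nat.beq c.rb0 0 || Nat.blt g.rp1 c.rb0 || Nat.blt (b.rk false (S3.of g.sp)) c.rb0) &&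
      (Nat.beq c.rb1 0 || Nat.blt g.rp0 c.rb1 || Nat.blt (b.rk true (S3.of g.sp)) c.rb1)) &&
  (match c.bx.getLast? with
    | none => false
    | some b => (b.sh == g.sp) && eqZ (regF g b g.sp) g.pl &&
      (Nat.beq c.rt0 0 || Nat.blt g.rp0 c.rt0 || Nat.blt (b.rk false (S3.of g.sp)) c.rt0) &&
      (Nat.beq c.rt1 0 || Nat.blt g.rp1 c.rt1 || Nat.blt (b.rk true (S3.of g.sp)) c.rt1))

/-! ### roots -/

/-- one possible root -/
def rt1 (g : Gl) (i j : ℕ) (b : Box) (l : Bool) (s : S3) (acc : List (Cell × S3 × ℤ)) :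
    List (Cell × S3 × ℤ) :=
  if Nat.beq (b.rk l s) 0 then (Cell.box l i j, s, ls l (blF g b s)) :: acc else acc

def rootsBox (g : Gl) (i j : ℕ) (b : Box) (acc : List (Cell × S3 × ℤ)) : List (Cell × S3 × ℤ) :=
  match b.ty with
  | 0 => rt1 g i j b false (S3.of b.sl) (rt1 g i j b true (S3.of b.sl) acc)
  | _ => rt1 g i j b false S3.p (rt1 g i j b true S3.p (rt1 g i j b false S3.n
      (rt1 g i j b true S3.n (rt1 g i j b false S3.z (rt1 g i j b true S3.z acc)))))

def rootsBs (g : Gl) (i : ℕ) : ℕ → List Box → List (Cell × S3 × ℤ)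
  | _, [] => []
  | j, b :: bs => rootsBox g i j b (rootsBs g i (j + 1) bs)

def rootsC (g : Gl) (i : ℕ) (c : Column) : List (Cell × S3 × ℤ) :=
  (if Nat.beq c.rt0 0 then [(Cell.top false i, S3.of g.sp, g.pl)] else []) ++
  (if Nat.beq c.rt1 0 then [(Cell.top true i, S3.of g.sp, negZ g.pl)] else []) ++
  (if Nat.beq c.rb0 0 then [(Cell.bot false i, S3.of g.sp, negZ g.pl)] else []) ++
  (if Nat.beq c.rb1 0 then [(Cell.bot true i, S3.of g.sp, g.pl)] else []) ++ rootsBs g i 0 c.bx

/-- all the parts of rank zero of a list of columns; `i`: index of the first column -/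
def rootsL (g : Gl) : ℕ → List Column → List (Cell × S3 × ℤ)
  | _, [] => []
  | i, c :: L => rootsC g i c ++ rootsL g (i + 1) L

/-- rank of the poles (`C`: some columns) -/
def poleF (g : Gl) (C : List Column) : Bool :=
  (Nat.beq g.rp0 0 || C.any (fun c => Nat.blt c.rt0 g.rp0 || Nat.blt c.rb1 g.rp0)) &&
  (Nat.beq g.rp1 0 || C.any (fun c => Nat.blt c.rt1 g.rp1 || Nat.blt c.rb0 g.rp1))

/-- the certificate with the global data `g` and the columns `L` -/
def certOf (g : Gl) (L : List Column) : Cert :=
  { cols := L, par := g.par, pl := g.pl, s0 := g.s0, rp0 := g.rp0, rp1 := g.rp1 }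

end Oct.N
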