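import Pool.Agent.helper70.M8.Defs
import Pool.Agent.helper70.M10.Base

set_option autoImplicit false

/-!
# Certificates with a chart for every box: analytic and combinatorial conditions
-/

open MvPolynomial Set

namespace Oct.N

open Oct

/-- value of a polynomial (list of coefficients, constant first) -/
def evR (l : List ℤ) (x : ℝ) : ℝ := l.foldr (fun c r => (c : ℝ) + x * r) 0

/-! ### geometry -/

noncomputable def Chart.vx (c : Chart) (t : ℝ) : ℝ := c.x0 + c.x1 * t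
noncomputable def Chart.vy (c : Chart) (t : ℝ) : ℝ := c.y0 + c.y1 * t
noncomputable def Chart.ber (c : Chart) (t : ℝ) : ℝ := evR c.be t
/-- the chart as a map to `ℝ³` -/
noncomputable def Chart.pt (c : Chart) (t u : ℝ) : Fin 3 → ℝ := ![c.vx t, c.vy t, c.al * u + c.ber t]

/-- height of the level `u` over `t` -/
noncomputable def Box.lv (b : Box) (u t : ℝ) : ℝ := b.al * u + evR b.be t

/-! ### analytic conditions -/

/-- `l[0] + l[1] t + ...` as a polynomial in the first variable -/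
noncomputable def polT (l : List ℤ) : MvPolynomial (Fin 2) ℝ :=
  l.foldr (fun c r => C (c : ℝ) + X 0 * r) 0

/-- pull back by the chart -/
noncomputable def Chart.pull (c : Chart) (F : MvPolynomial (Fin 3) ℝ) : MvPolynomial (Fin 2) ℝ :=
  aeval ![C (c.x0 : ℝ) + C (c.x1 : ℝ) * X 0, C (c.y0 : ℝ) + C (c.y1 : ℝ) * X 0,
    C (c.al : ℝ) * X 1 + polT c.be] F

/-- pull back by `(t,s) ↦ s • pt t h + (1 - s) • (0,0,σ)` -/
noncomputable def Chart.pullEnd (c : Chart) (h : ℤ) (σ : Bool) (F : MvPolynomial (Fin 3) ℝ) :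
    MvPolynomial (Fin 2) ℝ :=
  aeval ![X 1 * (C (c.x0 : ℝ) + C (c.x1 : ℝ) * X 0), X 1 * (C (c.y0 : ℝ) + C (c.y1 : ℝ) * X 0),
    X 1 * (C (c.al * h : ℝ) + polT c.be) + C (sg σ) * (1 - X 1)] F

/-- analytic conditions for a box with the chart `ch` -/
def BoxOK (F : MvPolynomial (Fin 3) ℝ) (ch : Chart) (b : Box) : Prop :=
  PosOn (C (sg b.sl) * ch.pull F) 0 1 b.lo b.lo ∧
  PosOn (C (sg b.sh) * ch.pull F) 0 1 b.hi b.hi ∧
  ((b.ty = 0 ∧ b.sl = b.sh ∧ PosOn (C (sg b.sl) * ch.pull F) 0 1 b.lo b.hi) ∨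
   (b.ty = 1 ∧ b.sl = !b.sh ∧
      PosOn (C (sg b.sh) * pderiv 1 (ch.pull F)) 0 1 b.lo b.hi) ∨
   (b.ty = 2 ∧ b.sl = b.sh ∧
      PosOn (C (sg b.sl) * ch.pull F) 0 0 b.lo b.hi ∧
      PosOn (C (-sg b.sl) * pderiv 0 (ch.pull F)) 0 1 b.lo b.hi ∧
      PosOn (C (sg b.sl) * pderiv 1 (pderiv 1 (ch.pull F))) 1 1 b.lo b.hi ∧
      PosOn (C (-sg b.sl) * ch.pull F) 1 1 b.c b.c) ∨
   (b.ty = 3 ∧ b.sl = b.sh ∧
      PosOn (C (sg b.sl) * ch.pull F) 1 1 b.lo b.hi ∧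
      PosOn (C (sg b.sl) * pderiv 0 (ch.pull F)) 0 1 b.lo b.hi ∧
      PosOn (C (sg b.sl) * pderiv 1 (pderiv 1 (ch.pull F))) 0 0 b.lo b.hi ∧
      PosOn (C (-sg b.sl) * ch.pull F) 0 0 b.c b.c))

/-- analytic conditions for a column; `sp` is the sign of `F` at the pole -/
def ColOK (F : MvPolynomial (Fin 3) ℝ) (sp : Bool) (col : Column) : Prop :=
  PosOn (C (sg sp) * (col.cb col.lb).pullEnd col.lb.hi true F) 0 1 0 1 ∧
  PosOn (C (sg sp) * (col.cb col.fb).pullEnd col.fb.lo false F) 0 1 0 1 ∧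
  ∀ b ∈ col.bx, BoxOK F (col.cb b) b

/-- all the analytic conditions of a certificate -/
def AnaOK (F : MvPolynomial (Fin 3) ℝ) (sp : Bool) (cols : List Column) : Prop :=
  ∀ col ∈ cols, ColOK F sp col

/-! ### combinatorial conditions -/

/-- the part `s` of a box is not empty -/
def Box.Act (b : Box) (s : S3) : Prop := b.ty = 0 → s = S3.of b.sl

/-- rank condition for the part `s`, lift `l`, of the box `j` of the column `i` -/
def Cert.BoxRank (ct : Cert) (i j : ℕ) (l : Bool) (s : S3) : Prop :=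
  let c := ct.col i
  let b := c.box j
  let r := b.rk l s
  r = 0 ∨
  (s = S3.of b.sl ∧ ((j = 0 ∧ c.rb l < r) ∨ (∃ k, j = k + 1 ∧ (c.box k).rk l s < r))) ∨
  (s = S3.of b.sh ∧ ((j + 1 = c.bx.length ∧ c.rt l < r) ∨
    (j + 1 < c.bx.length ∧ (c.box (j + 1)).rk l s < r))) ∨
  SideNb ct.sp true (segOf ct.par ct.s0 c.b
    (if i + 1 < ct.n then (c.scal (ct.col (i + 1))).1 else (c.scalS (ct.col 0)).1) true b)
    (ct.eN i) l s r ∨
  SideNb ct.sp false (segOf ct.par ct.s0 c.a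
    (if i = 0 then ((ct.col (ct.n - 1)).scalS c).2 else ((ct.col (i - 1)).scal c).2) false b)
    (ct.eP i) l s r

def Cert.Valid (ct : Cert) (c : Cell) : Prop :=
  match c with
  | Cell.box _ i j => i < ct.n ∧ j < (ct.col i).bx.length
  | Cell.top _ i => i < ct.n
  | Cell.bot _ i => i < ct.n
  | Cell.pole _ => True

/-- the part `s` of the cell is not empty -/
def Cert.Act (ct : Cert) (c : Cell) (s : S3) : Prop :=
  match c with
  | Cell.box _ i j => ((ct.col i).box j).Act s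
  | _ => s = S3.of ct.sp

/-- the upper box `b'` continues the lower box `b` in the same chart -/
def Same (b b' : Box) : Prop := b.al = b'.al ∧ b.be = b'.be ∧ b.hi = b'.lo

/-- two sign-definite boxes with different charts which overlap -/
def Junc (b b' : Box) : Prop :=
  b.ty = 0 ∧ b'.ty = 0 ∧ ∀ t : ℝ, 0 ≤ t → t ≤ 1 →
    b.lv b.lo t < b'.lv b'.lo t ∧ b'.lv b'.lo t ≤ b.lv b.hi t ∧ b.lv b.hi t < b'.lv b'.hi t

/-- the combinatorial conditions of a certificate -/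
structure Comb (ct : Cert) : Prop where
  pos_n : 0 < ct.n
  pos_m : 0 < ct.m
  colR : ∀ c ∈ ct.cols, 0 < c.x1 * c.y0 - c.x0 * c.y1 ∧
    0 ≤ c.ch.vyZ c.a ∧ 0 ≤ c.ch.vyZ c.b ∧ c.bx ≠ []
  boxS : ∀ c ∈ ct.cols, ∀ b ∈ c.bx, 0 < b.s ∧ 0 < b.al
  /-- directions -/
  first : (ct.col 0).ch.vyZ (ct.col 0).a = 0 ∧ (ct.col 0).ch.vxZ (ct.col 0).a < 0
  last : (ct.col (ct.n - 1)).ch.vyZ (ct.col (ct.n - 1)).b = 0 ∧
    0 < (ct.col (ct.n - 1)).ch.vxZ (ct.col (ct.n - 1)).b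
  chain : ∀ i, i + 1 < ct.n →
    ((ct.col i).scal (ct.col (i + 1))).1 * (ct.col i).ch.vxZ (ct.col i).b =
      ((ct.col i).scal (ct.col (i + 1))).2 * (ct.col (i + 1)).ch.vxZ (ct.col (i + 1)).a ∧
    ((ct.col i).scal (ct.col (i + 1))).1 * (ct.col i).ch.vyZ (ct.col i).b =
      ((ct.col i).scal (ct.col (i + 1))).2 * (ct.col (i + 1)).ch.vyZ (ct.col (i + 1)).a
  /-- vertical neighbours -/
  vert : ∀ c ∈ ct.cols, ∀ j, j + 1 < c.bx.length →
    (Same (c.box j) (c.box (j + 1)) ∨ Junc (c.box j) (c.box (j + 1))) ∧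
    (c.box j).sh = (c.box (j + 1)).sl ∧
    ct.bl (c.box j) (S3.of (c.box j).sh) = ct.bl (c.box (j + 1)) (S3.of (c.box j).sh)
  /-- no two consecutive junctions -/
  vert2 : ∀ c ∈ ct.cols, ∀ j, j + 2 < c.bx.length →
    Same (c.box j) (c.box (j + 1)) ∨ Same (c.box (j + 1)) (c.box (j + 2))
  top : ∀ c ∈ ct.cols, (c.box (c.bx.length - 1)).sh = ct.sp ∧
    ct.bl (c.box (c.bx.length - 1)) (S3.of ct.sp) = ct.pl
  bot : ∀ c ∈ ct.cols, (c.box 0).sl = ct.sp ∧ ct.bl (c.box 0) (S3.of ct.sp) = -ct.pl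
  /-- horizontal neighbours -/
  glue : ∀ i < ct.n, EdgeGlue ct.sp ct.pl (ct.eR i) (ct.eN i)
  /-- ranks -/
  rankB : ∀ i < ct.n, ∀ j < (ct.col i).bx.length, ∀ l s, ((ct.col i).box j).Act s →
    ct.BoxRank i j l s
  rankT : ∀ i < ct.n, ∀ l, (ct.col i).rt l = 0 ∨ (if l then ct.rp1 else ct.rp0) < (ct.col i).rt l ∨
    ((ct.col i).box ((ct.col i).bx.length - 1)).rk l (S3.of ct.sp) < (ct.col i).rt l
  rankBo : ∀ i < ct.n, ∀ l, (ct.col i).rb l = 0 ∨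
    (if l then ct.rp0 else ct.rp1) < (ct.col i).rb l ∨
    ((ct.col i).box 0).rk l (S3.of ct.sp) < (ct.col i).rb l
  rankP : ∀ l, (if l then ct.rp1 else ct.rp0) = 0 ∨ ∃ i < ct.n,
    (ct.col i).rt l < (if l then ct.rp1 else ct.rp0) ∨
    (ct.col i).rb (!l) < (if l then ct.rp1 else ct.rp0)
  /-- labels -/
  lab0 : ∀ c ∈ ct.cols, ∀ b ∈ c.bx, b.lab.natAbs ≤ ct.m ∧ (b.ty ≠ 0 → b.lab ≠ 0)
  labp : ct.pl.natAbs ≤ ct.m
  tree : ∀ i < ct.m, ct.par.getD i 0 ≤ i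
  /-- roots: one for every region and every oval of the sphere -/
  root : ∀ c c' s s', ct.Valid c → ct.Valid c' → ct.Act c s → ct.Act c' s' →
    ct.crk c s = 0 → ct.crk c' s' = 0 → (s = S3.z ↔ s' = S3.z) → ct.clab c s = ct.clab c' s' →
    c = c' ∧ s = s'
  all : ∀ o : ℤ, o ≠ 0 → o.natAbs ≤ ct.m → ∃ c, ct.Valid c ∧ ct.Act c S3.z ∧ ct.clab c S3.z = o

/-! ### the cells as subsets of `ℝ³ \ 0` -/

def Cert.K (ct : Cert) (c : Cell) : Set V3 :=
  match c with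
  | Cell.box l i j => {v | ∃ r > 0, ∃ t ∈ Icc ((ct.col i).a : ℝ) (ct.col i).b,
      ∃ u ∈ Icc (((ct.col i).box j).lo : ℝ) ((ct.col i).box j).hi,
      v.1 = (r * sg (!l)) • ((ct.col i).cb ((ct.col i).box j)).pt t u}
  | Cell.top l i => {v | ∃ r > 0, ∃ t ∈ Icc ((ct.col i).a : ℝ) (ct.col i).b,
      ∃ s ∈ Icc (0 : ℝ) 1,
      v.1 = (r * sg (!l)) • (s • ((ct.col i).cb (ct.col i).lb).pt t (ct.col i).lb.hi +
        (1 - s) • pole false)}
  | Cell.bot l i => {v | ∃ r > 0, ∃ t ∈ Icc ((ct.col i).a : ℝ) (ct.col i).b,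
      ∃ s ∈ Icc (0 : ℝ) 1,
      v.1 = (r * sg (!l)) • (s • ((ct.col i).cb (ct.col i).fb).pt t (ct.col i).fb.lo +
        (1 - s) • pole true)}
  | Cell.pole l => {v | ∃ r > 0, v.1 = (r : ℝ) • pole l}

end Oct.N
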