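import Pool.Agent.helper70.M9.ChkG
import Pool.Agent.helper70.M10.Base

set_option autoImplicit false

/-!
# Integer checker, analytic part: direct evaluation

The rows of the polynomial `F(pt(t,u))` for `t ∈ [0,1]` (coefficients of the powers of `u`, packed
polynomials in `s`, `t = s/(1+s)`) are computed directly from the coefficients of `F`, for every
chart. The packed variable is `2^B`; `D = 1 + 2^B`.
-/

namespace Oct.N

open Oct

/-- box of a group -/
structure GBox where
  c : ℤ
  s : ℤ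
  ty : ℕ
  sl : Bool
  sh : Bool
  lab : ℤ
  rp0 : ℕ
  rn0 : ℕ
  rz0 : ℕ
  rp1 : ℕ
  rn1 : ℕ
  rz1 : ℕ

/-- consecutive boxes with the same chart -/
structure Grp where
  al : ℤ
  be : List ℤ
  bx : List GBox

/-- column with groups of boxes -/
structure GCol where
  x0 : ℤ
  x1 : ℤ
  y0 : ℤ
  y1 : ℤ
  gs : List Grp
  rt0 : ℕ
  rt1 : ℕ
  rb0 : ℕ
  rb1 : ℕ

def GBox.box (al : ℤ) (be : List ℤ) (b : GBox) : Box :=
  ⟨al, be, b.c, b.s, b.ty, b.sl, b.sh, b.lab, b.rp0, b.rn0, b.rz0, b.rp1, b.rn1, b.rz1⟩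

def Grp.boxes (g : Grp) : List Box := g.bx.map (GBox.box g.al g.be)

def GCol.col (c : GCol) : Column :=
  ⟨c.x0, c.x1, c.y0, c.y1, c.gs.flatMap Grp.boxes, c.rt0, c.rt1, c.rb0, c.rb1⟩

/-- `fm[k][i]`: coefficient of `xⁱ y^(d-k-i) z^k`; `fx`, `fy`, `fz`: partial derivatives; `nF`:
bound for the sum of the absolute values of the coefficients of `F` -/
structure Tabs where
  fm : List (List ℤ)
  fx : List (List ℤ)
  fy : List (List ℤ)
  fz : List (List ℤ)
  nF : ℕ

/-- `[k c₀, (k+1) c₁, (k+2) c₂, ...]` -/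
def dbL : ℕ → List ℤ → List ℤ
  | _, [] => []
  | k, c :: l => (k : ℤ) * c :: dbL (k + 1) l

/-- `∂/∂y` of a form `∑ᵢ l[i] xⁱ y^(n-i)` of degree `n` -/
def dyL : ℕ → List ℤ → List ℤ
  | n + 1, c :: l => ((n : ℤ) + 1) * c :: dyL n l
  | _, _ => []

/-- `∂/∂x`, `∂/∂y` of the forms of degree `n, n - 1, ...` -/
def dxT : ℕ → List (List ℤ) → List (List ℤ)
  | n + 1, l :: L => dbL 1 l.tail :: dxT n L
  | _, _ => []
def dyT : ℕ → List (List ℤ) → List (List ℤ)
  | n + 1, l :: L => dyL (n + 1) l :: dyT n L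
  | _, _ => []

/-- the forms multiplied by `k`, `k + 1`, ... -/
def mkT : ℕ → List (List ℤ) → List (List ℤ)
  | _, [] => []
  | k, l :: L => l.map (fun c => (k : ℤ) * c) :: mkT (k + 1) L

/-- the lists have lengths at most `n + 1`, `n`, ..., `1` -/
def lenOK : ℕ → List (List ℤ) → Bool
  | _, [] => true
  | 0, l :: L => Nat.ble l.length 1 && Nat.ble L.length 0
  | n + 1, l :: L => Nat.ble l.length (n + 2) && lenOK n L

/-- the tables are correct -/
def tabsOK (t : Tabs) : Bool :=
  Nat.beq t.fm.length 9 && lenOK 8 t.fm &&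
  decide (t.fx = dxT 8 t.fm) && decide (t.fy = dyT 8 t.fm) && decide (t.fz = mkT 1 t.fm.tail) &&
  Nat.ble (t.fm.foldr (fun l r => l.foldr (fun c r => c.natAbs + r) 0 + r) 0) t.nF

/-! ## signed numbers -/

noncomputable def smul (x y : SM) : SM :=
  ⟨Bool.rec (motive := fun _ => Bool) y.s (not y.s) x.s, Nat.mul x.v y.v⟩

noncomputable def smulZ (z : ℤ) (p : SM) : SM :=
  Int.rec (motive := fun _ => SM) (fun n => ⟨p.s, Nat.mul n p.v⟩)
    (fun n => ⟨not p.s, Nat.mul (Nat.succ n) p.v⟩) z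

noncomputable def sshl (x : SM) (B : ℕ) : SM := ⟨x.s, Nat.shiftLeft x.v B⟩

/-! ## rows -/

/-- `[yⁿ, ..., y, 1]` -/
noncomputable def pwS (y : SM) (n : ℕ) : List SM :=
  Nat.rec (motive := fun _ => List SM) [⟨false, 1⟩]
    (fun _ ih => List.rec (motive := fun _ => List SM) [] (fun a _ _ => smul y a :: ih) ih) n

/-- `∑ᵢ l[i] Xⁱ P[i]` -/
noncomputable def formG (X : SM) (l : List ℤ) : List SM → SM :=
  List.rec (motive := fun _ => List SM → SM) (fun _ => ⟨false, 0⟩)
    (fun c _ ih P => List.rec (motive := fun _ => SM) ⟨false, 0⟩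
      (fun p P' _ => sadd (smulZ c p) (smul X (ih P'))) P) l

/-- forms of degree `d, d - 1, ...` -/
noncomputable def formsG (X : SM) (fm : List (List ℤ)) : List SM → List SM :=
  List.rec (motive := fun _ => List SM → List SM) (fun _ => [])
    (fun l _ ih P => List.rec (motive := fun _ => List SM) []
      (fun _ P' _ => formG X l P :: ih P') P) fm

/-- `∑ᵢ be[i] 2^(B i) D^(k-i)` -/
noncomputable def bhG (B D : ℕ) (be : List ℤ) : ℕ → SM :=
  List.rec (motive := fun _ => ℕ → SM) (fun _ => ⟨false, 0⟩)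
    (fun c _ ih k => sadd (ofZ c (Nat.pow D k)) (sshl (ih (Nat.pred k)) B)) be

/-- products, entry by entry -/
noncomputable def zipN (V : List SM) : List ℕ → List SM :=
  List.rec (motive := fun _ => List ℕ → List SM) (fun _ => [])
    (fun v _ ih P => List.rec (motive := fun _ => List SM) []
      (fun p P' _ => smulN p v :: ih P') P) V

/-- one step of the translation: `c + (u + b) M` -/
noncomputable def stG (b : SM) (M : List SM) : SM → List SM :=
  List.rec (motive := fun _ => SM → List SM) (fun c => [c])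
    (fun m _ ih c => sadd c (smul b m) :: ih m) M

/-- translation `u ↦ u + b` -/
noncomputable def shG (b : SM) (L : List SM) : List SM :=
  List.rec (motive := fun _ => List SM) [] (fun c _ ih => stG b ih c) L

/-- `u ↦ a u`, everything times `p` -/
noncomputable def scG (a : ℕ) (L : List SM) : ℕ → List SM :=
  List.rec (motive := fun _ => ℕ → List SM) (fun _ => [])
    (fun x _ ih p => smulN p x :: ih (Nat.mul p a)) L

/-- rows of `F` in a chart; `C`: forms, `k`: degree of `be` -/
noncomputable def rowsV (B : ℕ) (C : List SM) (al : ℕ) (be : List ℤ) (k : ℕ) : List SM :=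
  let D := Nat.succ (Nat.pow 2 B)
  scG (Nat.mul al (Nat.pow D k))
    (shG (bhG B D be k) (zipN C (pw (Nat.pow D (Nat.pred k)) 8))) 1

/-- sums, entry by entry -/
noncomputable def addS (V : List SM) : List SM → List SM :=
  List.rec (motive := fun _ => List SM → List SM) (fun _ => [])
    (fun v _ ih W => List.rec (motive := fun _ => List SM) []
      (fun w W' _ => sadd v w :: ih W') W) V

/-- rows of `∂/∂t F`; `Cx`, `Cy`, `Cz`: forms of the derivatives -/
noncomputable def rowsT (B : ℕ) (x1 y1 : ℤ) (Cx Cy Cz : List SM) (al : ℕ) (be : List ℤ) (k : ℕ) :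
    List SM :=
  let D := Nat.succ (Nat.pow 2 B)
  let Dk := Nat.pow D k
  let bd := bhG B D (dbL 1 be.tail) (Nat.pred k)
  let Q := addS (Cx.map (fun x => smulZ x1 (smulN Dk x)))
    (addS (Cy.map (fun x => smulZ y1 (smulN Dk x))) (Cz.map (fun x => smul bd (smulN D x))))
  scG (Nat.mul al Dk) (shG (bhG B D be k) (zipN Q (pw (Nat.pow D (Nat.pred k)) 7))) 1

/-- rows (integers) on a vertical side -/
noncomputable def rowsA (fm : List (List ℤ)) (x y : ℤ) (al : ℕ) (b : ℤ) : List SM :=
  scG al (shG (ofZ b 1) (formsG (ofZ x 1) fm (pwS (ofZ y 1) 8))) 1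

/-! ## tests -/

/-- test of a box; `V`, `Z`, `U`: rows -/
noncomputable def boxN (t : Tabs) (B k : ℕ) (kc : Kc) (X Y : SM) (c : GCol) (al : ℕ)
    (be : List ℤ) (V Z U : List SM) (um : ℕ) (b : GBox) : Bool :=
  let cc := tn b.c
  let s := tn b.s
  let lo := Nat.sub cc s
  let hi := Nat.add cc s
  (nn b.c && nn b.s && Nat.ble s cc && Nat.ble hi um) &&
  match b.ty with
  | 0 => (b.sl == b.sh) && tst2 kc Z b.sl lo hi
  | 1 => (b.sl == !b.sh) && tst2 kc U b.sh lo hi && tst1 kc V b.sl lo && tst1 kc V b.sh hi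
  | 2 =>
    let Aa := rowsA t.fm c.x0 c.y0 al (be.headD 0)
    let Ab := rowsA t.fm (c.x0 + c.x1) (c.y0 + c.y1) al (be.foldr (· + ·) 0)
    let P := pwS Y 7
    let T := zipG kc.S (rowsT B c.x1 c.y1 (formsG X t.fx P) (formsG X t.fy P)
      (formsG X t.fz P) al be k) 8
    (b.sl == b.sh) && tst1 kc V b.sl lo && tst1 kc V b.sh hi &&
      tst0 kc Aa b.sl lo hi && tst2 kc T (!b.sl) lo hi &&
      tst0 kc (duG (duG Ab.tail 1).tail 1) b.sl lo hi && tstP Ab (!b.sl) cc
  | 3 =>
    let Aa := rowsA t.fm c.x0 c.y0 al (be.headD 0)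
    let Ab := rowsA t.fm (c.x0 + c.x1) (c.y0 + c.y1) al (be.foldr (· + ·) 0)
    let P := pwS Y 7
    let T := zipG kc.S (rowsT B c.x1 c.y1 (formsG X t.fx P) (formsG X t.fy P)
      (formsG X t.fz P) al be k) 8
    (b.sl == b.sh) && tst1 kc V b.sl lo && tst1 kc V b.sh hi &&
      tst0 kc Ab b.sl lo hi && tst2 kc T b.sl lo hi &&
      tst0 kc (duG (duG Aa.tail 1).tail 1) b.sl lo hi && tstP Aa (!b.sl) cc
  | _ => false

/-- `∑ |be[i]|` -/
def nrB (l : List ℤ) : ℕ := l.foldr (fun c r => c.natAbs + r) 0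

/-- bounds for the numbers of a chart: `M` bound for the coordinates, `um` for the levels -/
def bndN (t : Tabs) (B M um : ℕ) (c : GCol) (al : ℕ) (be : List ℤ) (k : ℕ) : Bool :=
  Nat.ble (c.x0.natAbs + c.x1.natAbs) M &&
  Nat.ble (c.y0.natAbs + c.y1.natAbs) M &&
  Nat.ble (al * um + nrB be) M &&
  Nat.blt (2 ^ (8 * k + 8) * (128 * (t.nF * M ^ 8) + 1)) (2 ^ (B - 1)) &&
  Nat.ble 1 um && Nat.ble 1 B && Nat.ble 1 k && Nat.ble k 4

/-- highest level of a list of boxes (at least the last one) -/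
noncomputable def umOf (L : List GBox) : ℕ := L.foldl (fun _ b => Nat.add (tn b.c) (tn b.s)) 1

/-- test of the lower unbounded part -/
noncomputable def capB (kc : Kc) (V : List SM) (sp : Bool) (L : List GBox) : Bool :=
  match L.head? with
  | none => false
  | some b => tstG kc.o2 kc.ms1 sp (horL (Nat.sub (tn b.c) (tn b.s)) kc.S V)

/-- test of the upper unbounded part -/
noncomputable def capT (kc : Kc) (V : List SM) (sp : Bool) (L : List GBox) : Bool :=
  match L.getLast? with
  | none => false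
  | some b => tstG kc.o2 kc.ms1 sp (horG (Nat.add (tn b.c) (tn b.s)) 1 kc.S V)

/-- test of a group; `fst`, `lst`: first or last group of the column -/
noncomputable def grpN (t : Tabs) (B M : ℕ) (sp : Bool) (X Y : SM) (C : List SM) (c : GCol)
    (fst lst : Bool) (g : Grp) : Bool :=
  let k := Nat.pred g.be.length
  let al := tn g.al
  let kc := kcOf B (8 * k) 8
  let V := rowsV B C al g.be k
  let um := umOf g.bx
  nn g.al && Nat.ble 1 al && bndN t B M um c al g.be k &&
  (!fst || capB kc V sp g.bx) && (!lst || capT kc V sp g.bx) &&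
  g.bx.all (boxN t B k kc X Y c al g.be V (zipG kc.S V 8) (zipG kc.S (duG V.tail 1) 8) um)

/-- test of the groups of a column; the boolean: first group -/
noncomputable def grpsN (t : Tabs) (B M : ℕ) (sp : Bool) (X Y : SM) (C : List SM) (c : GCol) :
    Bool → List Grp → Bool
  | _, [] => false
  | f, [g] => grpN t B M sp X Y C c f true g
  | f, g :: g' :: L => grpN t B M sp X Y C c f false g && grpsN t B M sp X Y C c false (g' :: L)

/-- test of a column -/
noncomputable def colN (t : Tabs) (B M : ℕ) (sp : Bool) (c : GCol) : Bool :=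
  let X := sadd (ofZ c.x0 1) (ofZ (c.x0 + c.x1) (Nat.pow 2 B))
  let Y := sadd (ofZ c.y0 1) (ofZ (c.y0 + c.y1) (Nat.pow 2 B))
  let C := formsG X t.fm (pwS Y 8)
  grpsN t B M sp X Y C c true c.gs

end Oct.N
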