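import Pool.Agent.helper70.M8.E2
import Pool.Agent.helper70.M10.Defs
import Pool.Agent.helper70.M10.A

set_option autoImplicit false

/-!
# M10-B: the sides of a box as segments of a ray (port of M8/E2)
-/

open MvPolynomial Set Filter Topology

namespace Oct.N

open Oct

namespace E2A

theorem eval_polT (l : List ℤ) (t u : ℝ) : eval ![t, u] (polT l) = evR l t := by
  induction l with
  | nil => simp [polT, evR]
  | cons c l ih =>
    have h1 : polT (c :: l) = C (c : ℝ) + X 0 * polT l := rfl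
    have h2 : evR (c :: l) t = (c : ℝ) + t * evR l t := rfl
    rw [h1, h2, map_add, map_mul, ih]
    simp

theorem eval_pull (F : MvPolynomial (Fin 3) ℝ) (c : Chart) (t u : ℝ) :
    eval ![t, u] (c.pull F) = eval (c.pt t u) F := by
  unfold Chart.pull
  rw [MvPolynomial.aeval_def, MvPolynomial.eval_eval₂]
  have h1 : (fun s => eval ![t, u] ((![C (c.x0 : ℝ) + C (c.x1 : ℝ) * X 0,
      C (c.y0 : ℝ) + C (c.y1 : ℝ) * X 0,
      C (c.al : ℝ) * X 1 + polT c.be] :
        Fin 3 → MvPolynomial (Fin 2) ℝ) s)) = c.pt t u := by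
    funext i
    fin_cases i <;>
      simp [Chart.pt, Chart.vx, Chart.vy, Chart.ber, eval_polT]
  have h2 : (eval ![t, u]).comp (algebraMap ℝ (MvPolynomial (Fin 2) ℝ)) = RingHom.id ℝ := by
    ext r
    simp
  rw [h1, h2]
  rfl

theorem evR_cast (l : List ℤ) (T : ℤ) : evR l (T : ℝ) = ((evI l T : ℤ) : ℝ) := by
  induction l with
  | nil => simp [evR, evI]
  | cons c l ih =>
    have h1 : evI (c :: l) T = c + T * evI l T := rfl
    have h2 : evR (c :: l) (T : ℝ) = (c : ℝ) + T * evR l T := rfl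
    rw [h1, h2, ih]
    push_cast
    ring

theorem ray {F : MvPolynomial (Fin 3) ℝ} {d : ℕ} (hF : F.IsHomogeneous d) (ch : Chart)
    (T m : ℤ) (u : ℝ) :
    rayF F ((m * ch.vxZ T : ℤ) : ℝ) ((m * ch.vyZ T : ℤ) : ℝ)
      ((m : ℝ) * ((ch.al : ℝ) * u + (ch.beZ T : ℤ))) = (m : ℝ) ^ d * eval (ch.pt T u) F := by
  have hv : (![((m * ch.vxZ T : ℤ) : ℝ), ((m * ch.vyZ T : ℤ) : ℝ),
      (m : ℝ) * ((ch.al : ℝ) * u + (ch.beZ T : ℤ))] : Fin 3 → ℝ) = (m : ℝ) • ch.pt T u := by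
    ext i
    fin_cases i
    · simp [Chart.pt, Chart.vx, Chart.vxZ]
    · simp [Chart.pt, Chart.vy, Chart.vyZ]
    · simp [Chart.pt, Chart.ber, Chart.beZ, evR_cast]
  unfold rayF
  rw [hv, e2_eval_smul hF]

theorem posOn {F : MvPolynomial (Fin 3) ℝ} {ch : Chart} {r a b c d t u : ℝ}
    (h : PosOn (C r * ch.pull F) a b c d) (ht : t ∈ Icc a b) (hu : u ∈ Icc c d) :
    0 < r * eval (ch.pt t u) F := by
  have h1 := h t ht u hu
  rwa [map_mul, eval_C, eval_pull] at h1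

theorem side {F : MvPolynomial (Fin 3) ℝ} {d : ℕ} (hF : F.IsHomogeneous d) {col : Column}
    {b : Box} (h : BoxOK F (col.cb b) b) (hs : 0 < b.s) (hal : 0 < b.al)
    (par : List ℕ) (s0 : Bool) {m : ℤ} (hm : 0 < m) (T : ℤ)
    (hT : (T : ℝ) ∈ Icc (0 : ℝ) 1) (right : Bool)
    (hdf : (if right then b.ty == 3 else b.ty == 2) = true → b.sl = b.sh ∧
      ∀ u ∈ Icc (b.lo : ℝ) b.hi, 0 < sg b.sl * eval ((col.cb b).pt T u) F) :
    SegOK (rayF F (m * col.ch.vxZ T : ℤ) (m * col.ch.vyZ T : ℤ))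
      (segOf par s0 T m right b) := by
  have hmR : (0 : ℝ) < m := by exact_mod_cast hm
  have halR : (0 : ℝ) < b.al := by exact_mod_cast hal
  have hsR : (0 : ℝ) < b.s := by exact_mod_cast hs
  have hlohi : (b.lo : ℝ) < b.hi := by
    simp only [Box.lo, Box.hi]
    push_cast
    linarith
  have hmd : (0 : ℝ) < (m : ℝ) ^ d := pow_pos hmR d
  set Z : ℝ → ℝ := fun u => (m : ℝ) * ((b.al : ℝ) * u + ((col.cb b).beZ T : ℤ)) with hZ
  set U : ℝ → ℝ := fun z => (z / m - ((col.cb b).beZ T : ℤ)) / b.al with hU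
  have hZU : ∀ z, Z (U z) = z := by
    intro z
    simp only [hZ, hU]
    field_simp
    ring
  have hZmono : StrictMono Z := by
    intro u v huv
    simp only [hZ]
    have := mul_lt_mul_of_pos_left huv halR
    exact mul_lt_mul_of_pos_left (by linarith) hmR
  have hUmem : ∀ z ∈ Icc (Z b.lo) (Z b.hi), U z ∈ Icc (b.lo : ℝ) b.hi := by
    intro z hz
    constructor
    · rw [← hZmono.le_iff_le, hZU]; exact hz.1
    · rw [← hZmono.le_iff_le, hZU]; exact hz.2
  set g := rayF F ((m * col.ch.vxZ T : ℤ) : ℝ) ((m * col.ch.vyZ T : ℤ) : ℝ) with hg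
  have hgZ : ∀ u, g (Z u) = (m : ℝ) ^ d * eval ((col.cb b).pt T u) F := fun u => ray hF (col.cb b) T m u
  have hgU : ∀ z, g z = (m : ℝ) ^ d * eval ((col.cb b).pt T (U z)) F := by
    intro z
    rw [← hgZ, hZU]
  have elo : (((segOf par s0 T m right b).lo : ℤ) : ℝ) = Z b.lo := by
    simp [segOf, hZ, Box.lvZ, Chart.beZ, Column.cb]
  have ehi : (((segOf par s0 T m right b).hi : ℤ) : ℝ) = Z b.hi := by
    simp [segOf, hZ, Box.lvZ, Chart.beZ, Column.cb]
  obtain ⟨hlo, hhi, hcase⟩ := h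
  have mulpos : ∀ {r x : ℝ}, 0 < r * x → 0 < r * ((m : ℝ) ^ d * x) := by
    intro r x hx
    have : r * ((m : ℝ) ^ d * x) = (m : ℝ) ^ d * (r * x) := by ring
    rw [this]
    exact mul_pos hmd hx
  refine ⟨?_, ?_, ?_, ?_, ?_⟩
  · have : (((segOf par s0 T m right b).lo : ℤ) : ℝ) <
        ((segOf par s0 T m right b).hi : ℤ) := by
      rw [elo, ehi]
      exact hZmono hlohi
    exact_mod_cast this
  · rw [elo, hgZ]
    exact mulpos (posOn hlo hT ⟨le_refl _, le_refl _⟩)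
  · rw [ehi, hgZ]
    exact mulpos (posOn hhi hT ⟨le_refl _, le_refl _⟩)
  · intro hd
    rw [elo, ehi]
    have hd' : (b.ty == 0 || (if right then b.ty == 3 else b.ty == 2)) = true := hd
    have key : b.sl = b.sh ∧ ∀ u ∈ Icc (b.lo : ℝ) b.hi,
        0 < sg b.sl * eval ((col.cb b).pt T u) F := by
      rw [Bool.or_eq_true] at hd'
      rcases hd' with h0 | h1
      · have h0' : b.ty = 0 := by simpa using h0
        rcases hcase with ⟨_, h2, h3⟩ | ⟨h2, _⟩ | ⟨h2, _⟩ | ⟨h2, _⟩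
        · exact ⟨h2, fun u hu => posOn h3 hT hu⟩
        · omega
        · omega
        · omega
      · exact hdf h1
    refine ⟨key.1, fun z hz => ?_⟩
    rw [hgU]
    exact mulpos (key.2 _ (hUmem z hz))
  · intro hmo
    have hmo' : b.ty = 1 := by
      have : (b.ty == 1) = true := hmo
      simpa using this
    rw [elo, ehi]
    rcases hcase with ⟨h2, _⟩ | ⟨_, h2, h3⟩ | ⟨h2, _⟩ | ⟨h2, _⟩
    · omega
    · refine ⟨h2, ?_⟩
      have hup := up_of_upC (o := 0) (k := 0) (Or.inl ⟨rfl, h3⟩) hT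
      intro z hz w hw hzw h0
      have h6 : U z < U w := by rw [← hZmono.lt_iff_lt, hZU, hZU]; exact hzw
      have h7 := hup (U z) (hUmem z hz) (U w) (hUmem w hw) h6
      simp only [eval_pull] at h7
      have h0' : 0 ≤ sg b.sh * g z := h0
      rw [hgU] at h0'
      have h8 : 0 ≤ sg b.sh * eval ((col.cb b).pt T (U z)) F := by
        have e : sg b.sh * ((m : ℝ) ^ d * eval ((col.cb b).pt T (U z)) F) =
            (m : ℝ) ^ d * (sg b.sh * eval ((col.cb b).pt T (U z)) F) := by ring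
        rw [e] at h0'
        exact nonneg_of_mul_nonneg_right h0' hmd
      show 0 < sg b.sh * g w
      rw [hgU]
      exact mulpos (h7 h8)
    · omega
    · omega

end E2A

open E2A

theorem segOK_right {F : MvPolynomial (Fin 3) ℝ} {d : ℕ} (hF : F.IsHomogeneous d) {c : Column}
    {b : Box} (h : BoxOK F (c.cb b) b) (hs : 0 < b.s) (hal : 0 < b.al)
    (par : List ℕ) (s0 : Bool) {m : ℤ} (hm : 0 < m) :
    SegOK (rayF F (m * c.ch.vxZ c.b : ℤ) (m * c.ch.vyZ c.b : ℤ)) (segOf par s0 c.b m true b) := by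
  have h1 : ((c.b : ℤ) : ℝ) = 1 := by simp [Column.b]
  refine side hF h hs hal par s0 hm c.b (by rw [h1]; exact ⟨zero_le_one, le_refl _⟩) true ?_
  intro h3
  have h3' : b.ty = 3 := by simpa using h3
  obtain ⟨_, _, hcase⟩ := h
  rcases hcase with ⟨h2, _⟩ | ⟨h2, _⟩ | ⟨h2, _⟩ | ⟨_, h4, h5, _⟩
  · omega
  · omega
  · omega
  · exact ⟨h4, fun u hu => posOn h5 (by rw [h1]; exact ⟨le_refl _, le_refl _⟩) hu⟩

theorem segOK_left {F : MvPolynomial (Fin 3) ℝ} {d : ℕ} (hF : F.IsHomogeneous d) {c : Column}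
    {b : Box} (h : BoxOK F (c.cb b) b) (hs : 0 < b.s) (hal : 0 < b.al)
    (par : List ℕ) (s0 : Bool) {m : ℤ} (hm : 0 < m) :
    SegOK (rayF F (m * c.ch.vxZ c.a : ℤ) (m * c.ch.vyZ c.a : ℤ)) (segOf par s0 c.a m false b) := by
  have h1 : ((c.a : ℤ) : ℝ) = 0 := by simp [Column.a]
  refine side hF h hs hal par s0 hm c.a (by rw [h1]; exact ⟨le_refl _, zero_le_one⟩) false ?_
  intro h3
  have h3' : b.ty = 2 := by simpa using h3
  obtain ⟨_, _, hcase⟩ := h
  rcases hcase with ⟨h2, _⟩ | ⟨h2, _⟩ | ⟨_, h4, h5, _⟩ | ⟨h2, _⟩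
  · omega
  · omega
  · exact ⟨h4, fun u hu => posOn h5 (by rw [h1]; exact ⟨le_refl _, le_refl _⟩) hu⟩
  · omega

end Oct.N
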