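import Pool.Agent.helper70.M10.Defs
import Pool.Agent.helper70.M8.F1
import Pool.Agent.helper70.M10.V
import Pool.Agent.helper70.M10.D

set_option autoImplicit false
set_option linter.all false

/-! Module F1: the cells (port of `M8/F1.lean` of helper19; helper45). Uses module D
(`col_pos`, `vy_nonneg`, `sector_cover`), written `Oct.N.*` here. -/

open MvPolynomial Set Filter Topology

namespace Oct.N

open Oct Oct.F1

namespace F1

theorem cont_evR (l : List ℤ) : Continuous fun x : ℝ => evR l x := by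
  induction l with
  | nil =>
    show Continuous fun _ : ℝ => (0 : ℝ)
    exact continuous_const
  | cons a l ih =>
    show Continuous fun x : ℝ => (a : ℝ) + x * evR l x
    exact continuous_const.add (continuous_id.mul ih)

theorem cont_pt (c : Chart) : Continuous fun p : ℝ × ℝ => c.pt p.1 p.2 := by
  refine continuous_pi fun k => ?_
  fin_cases k
  · show Continuous fun p : ℝ × ℝ => c.vx p.1
    unfold Chart.vx
    fun_prop
  · show Continuous fun p : ℝ × ℝ => c.vy p.1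
    unfold Chart.vy
    fun_prop
  · show Continuous fun p : ℝ × ℝ => c.al * p.2 + evR c.be p.1
    exact (continuous_const.mul continuous_snd).add ((cont_evR c.be).comp continuous_fst)

section
variable {ct : Cert} (h : Comb ct)
include h

theorem pt_ne {i : ℕ} (hi : i < ct.n) {t : ℝ} (ht : t ∈ Icc ((ct.col i).a : ℝ) (ct.col i).b)
    (b : Box) (u : ℝ) : ((ct.col i).cb b).pt t u ≠ 0 := by
  intro h0
  apply (Oct.N.vy_nonneg h hi ht).2
  exact ⟨congrFun h0 0, congrFun h0 1⟩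

theorem end_ne {i : ℕ} (hi : i < ct.n) {t : ℝ} (ht : t ∈ Icc ((ct.col i).a : ℝ) (ct.col i).b)
    (b : Box) (u s : ℝ) (e : Bool) : s • ((ct.col i).cb b).pt t u + (1 - s) • pole e ≠ 0 := by
  intro h0
  have e0 := congrFun h0 0
  have e1 := congrFun h0 1
  simp [Chart.pt, pole] at e0 e1
  by_cases hs : s = 0
  · subst hs
    simp at h0
    exact pole_ne e h0
  · exact (Oct.N.vy_nonneg h hi ht).2 ⟨e0.resolve_left hs, e1.resolve_left hs⟩

end

/-- the parametrisations -/
theorem K_box (ct : Cert) (l : Bool) (i j : ℕ) : ct.K (Cell.box l i j) =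
    cone (fun p : ℝ × ℝ => sg (!l) • ((ct.col i).cb ((ct.col i).box j)).pt p.1 p.2)
      (Icc ((ct.col i).a : ℝ) (ct.col i).b ×ˢ
        Icc (((ct.col i).box j).lo : ℝ) ((ct.col i).box j).hi) := by
  ext v
  constructor
  · rintro ⟨r, hr, t, ht, u, hu, hv⟩
    exact ⟨r, hr, (t, u), ⟨ht, hu⟩, by rw [hv, mul_smul]⟩
  · rintro ⟨r, hr, ⟨t, u⟩, ⟨ht, hu⟩, hv⟩
    exact ⟨r, hr, t, ht, u, hu, by rw [hv, mul_smul]⟩

theorem K_top (ct : Cert) (l : Bool) (i : ℕ) : ct.K (Cell.top l i) =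
    cone (fun p : ℝ × ℝ => sg (!l) •
      (p.2 • ((ct.col i).cb (ct.col i).lb).pt p.1 (ct.col i).lb.hi + (1 - p.2) • pole false))
      (Icc ((ct.col i).a : ℝ) (ct.col i).b ×ˢ Icc (0 : ℝ) 1) := by
  ext v
  constructor
  · rintro ⟨r, hr, t, ht, u, hu, hv⟩
    exact ⟨r, hr, (t, u), ⟨ht, hu⟩, by rw [hv, mul_smul]⟩
  · rintro ⟨r, hr, ⟨t, u⟩, ⟨ht, hu⟩, hv⟩
    exact ⟨r, hr, t, ht, u, hu, by rw [hv, mul_smul]⟩

theorem K_bot (ct : Cert) (l : Bool) (i : ℕ) : ct.K (Cell.bot l i) =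
    cone (fun p : ℝ × ℝ => sg (!l) •
      (p.2 • ((ct.col i).cb (ct.col i).fb).pt p.1 (ct.col i).fb.lo + (1 - p.2) • pole true))
      (Icc ((ct.col i).a : ℝ) (ct.col i).b ×ˢ Icc (0 : ℝ) 1) := by
  ext v
  constructor
  · rintro ⟨r, hr, t, ht, u, hu, hv⟩
    exact ⟨r, hr, (t, u), ⟨ht, hu⟩, by rw [hv, mul_smul]⟩
  · rintro ⟨r, hr, ⟨t, u⟩, ⟨ht, hu⟩, hv⟩
    exact ⟨r, hr, t, ht, u, hu, by rw [hv, mul_smul]⟩

theorem K_pole (ct : Cert) (l : Bool) : ct.K (Cell.pole l) =
    cone (fun _ : Unit => pole l) univ := by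
  ext v
  constructor
  · rintro ⟨r, hr, hv⟩
    exact ⟨r, hr, (), mem_univ _, hv⟩
  · rintro ⟨r, hr, _, _, hv⟩
    exact ⟨r, hr, hv⟩

theorem cont_box (l : Bool) (c : Chart) : Continuous fun p : ℝ × ℝ => sg (!l) • c.pt p.1 p.2 :=
  continuous_const.fun_smul (cont_pt c)

theorem cont_end (l : Bool) (c : Chart) (w : ℝ) (e : Bool) : Continuous fun p : ℝ × ℝ =>
    sg (!l) • (p.2 • c.pt p.1 w + (1 - p.2) • pole e) := by
  refine continuous_const.fun_smul ?_
  refine Continuous.fun_add ?_ ?_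
  · exact continuous_snd.fun_smul ((cont_pt c).comp (continuous_fst.prodMk continuous_const))
  · exact (continuous_const.sub continuous_snd).fun_smul continuous_const

/-- affine lines upwards -/
theorem pt_add (c : Chart) (t u x : ℝ) (hal : (c.al : ℝ) ≠ 0) :
    c.pt t (u + x / c.al) = c.pt t u + x • pole false := by
  funext k
  fin_cases k
  · simp [Chart.pt, pole]
  · simp [Chart.pt, pole]
  · simp [Chart.pt, pole, sg]
    field_simp
    ring

section
variable {ct : Cert} (h : Comb ct)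
include h

theorem ne_bx {i : ℕ} (hi : i < ct.n) : 0 < (ct.col i).bx.length :=
  List.length_pos_iff.2 (h.colR _ (Oct.N.col_pos h hi)).2.2.2

theorem al_lb {i : ℕ} (hi : i < ct.n) : (0 : ℝ) < (ct.col i).lb.al := by
  have h1 := ne_bx h hi
  have h2 := (h.boxS _ (Oct.N.col_pos h hi) (ct.col i).lb
    (V.box_mem (j := (ct.col i).bx.length - 1) (by omega))).2
  exact_mod_cast h2

theorem al_fb {i : ℕ} (hi : i < ct.n) : (0 : ℝ) < (ct.col i).fb.al := by
  have h1 := ne_bx h hi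
  have h2 := (h.boxS _ (Oct.N.col_pos h hi) (ct.col i).fb (V.box_mem (j := 0) h1)).2
  exact_mod_cast h2

end

/-- third coordinate of a point of a box -/
theorem pt_two (c : Column) (b : Box) (t u : ℝ) : (c.cb b).pt t u 2 = b.lv u t := rfl

/-- the point of height `z` in the chart of a box -/
theorem pt_of_height (c : Column) (b : Box) (hal : (0 : ℝ) < b.al) (t z : ℝ) :
    (c.cb b).pt t ((z - evR b.be t) / b.al) = ![c.ch.vx t, c.ch.vy t, z] := by
  funext k
  fin_cases k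
  · rfl
  · rfl
  · show (b.al : ℝ) * ((z - evR b.be t) / b.al) + evR b.be t = z
    field_simp
    ring

end F1

open F1

section F
variable {ct : Cert} (h : Comb ct)
include h

theorem K_closed (c : Cell) (hc : ct.Valid c) : IsClosed (ct.K c) := by
  match c, hc with
  | Cell.box l i j, hc =>
    rw [Oct.N.F1.K_box]
    exact cone_closed (Oct.N.F1.cont_box l _) (isCompact_Icc.prod isCompact_Icc)
      fun p hp => smul_ne_zero (sg_ne _) (Oct.N.F1.pt_ne h hc.1 hp.1 _ _)
  | Cell.top l i, hc =>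
    rw [Oct.N.F1.K_top]
    exact cone_closed (Oct.N.F1.cont_end l _ _ _) (isCompact_Icc.prod isCompact_Icc)
      fun p hp => smul_ne_zero (sg_ne _) (Oct.N.F1.end_ne h hc hp.1 _ _ _ _)
  | Cell.bot l i, hc =>
    rw [Oct.N.F1.K_bot]
    exact cone_closed (Oct.N.F1.cont_end l _ _ _) (isCompact_Icc.prod isCompact_Icc)
      fun p hp => smul_ne_zero (sg_ne _) (Oct.N.F1.end_ne h hc hp.1 _ _ _ _)
  | Cell.pole l, hc =>
    rw [Oct.N.F1.K_pole]
    exact cone_closed continuous_const isCompact_univ fun _ _ => pole_ne l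

theorem K_conn (c : Cell) (hc : ct.Valid c) : IsPreconnected (ct.K c) := by
  match c, hc with
  | Cell.box l i j, hc =>
    rw [Oct.N.F1.K_box]
    exact cone_conn (Oct.N.F1.cont_box l _) (isPreconnected_Icc.prod isPreconnected_Icc)
      fun p hp => smul_ne_zero (sg_ne _) (Oct.N.F1.pt_ne h hc.1 hp.1 _ _)
  | Cell.top l i, hc =>
    rw [Oct.N.F1.K_top]
    exact cone_conn (Oct.N.F1.cont_end l _ _ _) (isPreconnected_Icc.prod isPreconnected_Icc)
      fun p hp => smul_ne_zero (sg_ne _) (Oct.N.F1.end_ne h hc hp.1 _ _ _ _)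
  | Cell.bot l i, hc =>
    rw [Oct.N.F1.K_bot]
    exact cone_conn (Oct.N.F1.cont_end l _ _ _) (isPreconnected_Icc.prod isPreconnected_Icc)
      fun p hp => smul_ne_zero (sg_ne _) (Oct.N.F1.end_ne h hc hp.1 _ _ _ _)
  | Cell.pole l, hc =>
    rw [Oct.N.F1.K_pole]
    exact cone_conn continuous_const isPreconnected_univ fun _ _ => pole_ne l

theorem K_cone (c : Cell) (x : V3) (r : ℝ) (hr : 0 < r) (hx : x ∈ ct.K c) :
    mulV r hr x ∈ ct.K c := by
  match c, hx with
  | Cell.box l i j, hx =>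
    rw [Oct.N.F1.K_box] at hx ⊢
    exact cone_mul hx r hr
  | Cell.top l i, hx =>
    rw [Oct.N.F1.K_top] at hx ⊢
    exact cone_mul hx r hr
  | Cell.bot l i, hx =>
    rw [Oct.N.F1.K_bot] at hx ⊢
    exact cone_mul hx r hr
  | Cell.pole l, hx =>
    rw [Oct.N.F1.K_pole] at hx ⊢
    exact cone_mul hx r hr

theorem K_inv_box (l : Bool) (i j : ℕ) (x : V3) :
    x ∈ ct.K (Cell.box (!l) i j) ↔ negV x ∈ ct.K (Cell.box l i j) := by
  constructor
  · rintro ⟨r, hr, t, ht, u, hu, hv⟩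
    refine ⟨r, hr, t, ht, u, hu, ?_⟩
    show -x.1 = _
    rw [hv, ← neg_smul, sg_not (!l), mul_neg, neg_neg]
  · rintro ⟨r, hr, t, ht, u, hu, hv⟩
    refine ⟨r, hr, t, ht, u, hu, ?_⟩
    have hv' : -x.1 = _ := hv
    rw [← neg_neg x.1, hv', ← neg_smul, sg_not (!l), mul_neg]

theorem K_inv_top (l : Bool) (i : ℕ) (x : V3) :
    x ∈ ct.K (Cell.top (!l) i) ↔ negV x ∈ ct.K (Cell.top l i) := by
  constructor
  · rintro ⟨r, hr, t, ht, u, hu, hv⟩
    refine ⟨r, hr, t, ht, u, hu, ?_⟩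
    show -x.1 = _
    rw [hv, ← neg_smul, sg_not (!l), mul_neg, neg_neg]
  · rintro ⟨r, hr, t, ht, u, hu, hv⟩
    refine ⟨r, hr, t, ht, u, hu, ?_⟩
    have hv' : -x.1 = _ := hv
    rw [← neg_neg x.1, hv', ← neg_smul, sg_not (!l), mul_neg]

theorem K_inv_bot (l : Bool) (i : ℕ) (x : V3) :
    x ∈ ct.K (Cell.bot (!l) i) ↔ negV x ∈ ct.K (Cell.bot l i) := by
  constructor
  · rintro ⟨r, hr, t, ht, u, hu, hv⟩
    refine ⟨r, hr, t, ht, u, hu, ?_⟩
    show -x.1 = _
    rw [hv, ← neg_smul, sg_not (!l), mul_neg, neg_neg]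
  · rintro ⟨r, hr, t, ht, u, hu, hv⟩
    refine ⟨r, hr, t, ht, u, hu, ?_⟩
    have hv' : -x.1 = _ := hv
    rw [← neg_neg x.1, hv', ← neg_smul, sg_not (!l), mul_neg]

theorem K_inv_pole (l : Bool) (x : V3) :
    x ∈ ct.K (Cell.pole (!l)) ↔ negV x ∈ ct.K (Cell.pole l) := by
  constructor
  · rintro ⟨r, hr, hv⟩
    refine ⟨r, hr, ?_⟩
    show -x.1 = _
    rw [hv, pole_not, smul_neg, neg_neg]
  · rintro ⟨r, hr, hv⟩
    refine ⟨r, hr, ?_⟩
    have hv' : -x.1 = _ := hv
    rw [← neg_neg x.1, hv', pole_not, smul_neg]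

/-- description of the unbounded cells: half lines above the highest level, and the pole -/
theorem mem_top_iff (l : Bool) {i : ℕ} (hi : i < ct.n) (x : V3) :
    x ∈ ct.K (Cell.top l i) ↔ x ∈ ct.K (Cell.pole l) ∨
      ∃ r > 0, ∃ t ∈ Icc ((ct.col i).a : ℝ) (ct.col i).b, ∃ u : ℝ, ((ct.col i).lb.hi : ℝ) ≤ u ∧
        x.1 = (r * sg (!l)) • ((ct.col i).cb (ct.col i).lb).pt t u := by
  have hal' : (0 : ℝ) < ((ct.col i).cb (ct.col i).lb).al := al_lb h hi
  constructor
  · rintro ⟨r, hr, t, ht, s, hs, hv⟩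
    rcases hs.1.eq_or_lt with h0 | h0
    · left
      refine ⟨r, hr, ?_⟩
      rw [hv, ← h0, zero_smul, zero_add, sub_zero, one_smul, mul_smul, ← pole_eq]
    · right
      refine ⟨r * s, mul_pos hr h0, t, ht,
        (ct.col i).lb.hi + (1 - s) / s / ((ct.col i).cb (ct.col i).lb).al, ?_, ?_⟩
      · have : 0 ≤ (1 - s) / s / ((ct.col i).cb (ct.col i).lb).al := by
          have := hs.2
          apply div_nonneg (div_nonneg (by linarith) h0.le) hal'.le
        linarith
      · rw [hv, Oct.N.F1.pt_add _ _ _ _ hal'.ne', mul_right_comm, mul_smul (r * sg (!l)) s]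
        rw [smul_add s, smul_smul s, mul_div_cancel₀ _ h0.ne']
  · rintro (⟨r, hr, hv⟩ | ⟨r, hr, t, ht, u, hu, hv⟩)
    · refine ⟨r, hr, (ct.col i).a, ⟨le_rfl, ?_⟩, 0, ⟨le_rfl, zero_le_one⟩, ?_⟩
      · have : (ct.col i).a ≤ (ct.col i).b := by unfold Column.a Column.b; omega
        exact_mod_cast this
      · rw [hv, zero_smul, zero_add, sub_zero, one_smul, mul_smul, ← pole_eq]
    · have hw : 0 ≤ ((ct.col i).cb (ct.col i).lb).al * (u - (ct.col i).lb.hi) :=
        mul_nonneg hal'.le (by linarith)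
      have hw1 : 0 < 1 + ((ct.col i).cb (ct.col i).lb).al * (u - (ct.col i).lb.hi) := by linarith
      refine ⟨r * (1 + ((ct.col i).cb (ct.col i).lb).al * (u - (ct.col i).lb.hi)),
        mul_pos hr hw1, t, ht,
        (1 + ((ct.col i).cb (ct.col i).lb).al * (u - (ct.col i).lb.hi))⁻¹,
        ⟨by positivity, inv_le_one_of_one_le₀ (by linarith)⟩, ?_⟩
      have e1 : u = (ct.col i).lb.hi + (((ct.col i).cb (ct.col i).lb).al *
          (u - (ct.col i).lb.hi)) / ((ct.col i).cb (ct.col i).lb).al := by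
        field_simp
        ring
      rw [hv]
      conv_lhs => rw [e1]
      rw [Oct.N.F1.pt_add _ _ _ _ hal'.ne', mul_right_comm, mul_smul (r * sg (!l))]
      congr 1
      rw [smul_add, smul_smul, smul_smul, mul_inv_cancel₀ hw1.ne', one_smul]
      congr 2
      field_simp
      ring

theorem mem_bot_iff (l : Bool) {i : ℕ} (hi : i < ct.n) (x : V3) :
    x ∈ ct.K (Cell.bot l i) ↔ x ∈ ct.K (Cell.pole (!l)) ∨
      ∃ r > 0, ∃ t ∈ Icc ((ct.col i).a : ℝ) (ct.col i).b, ∃ u : ℝ, u ≤ ((ct.col i).fb.lo : ℝ) ∧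
        x.1 = (r * sg (!l)) • ((ct.col i).cb (ct.col i).fb).pt t u := by
  have hal' : (0 : ℝ) < ((ct.col i).cb (ct.col i).fb).al := al_fb h hi
  constructor
  · rintro ⟨r, hr, t, ht, s, hs, hv⟩
    rcases hs.1.eq_or_lt with h0 | h0
    · left
      refine ⟨r, hr, ?_⟩
      rw [hv, ← h0, zero_smul, zero_add, sub_zero, one_smul, mul_smul, ← pole_eq']
    · right
      refine ⟨r * s, mul_pos hr h0, t, ht,
        (ct.col i).fb.lo + (-((1 - s) / s)) / ((ct.col i).cb (ct.col i).fb).al, ?_, ?_⟩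
      · have h1 : 0 ≤ (1 - s) / s / ((ct.col i).cb (ct.col i).fb).al := by
          have := hs.2
          apply div_nonneg (div_nonneg (by linarith) h0.le) hal'.le
        rw [neg_div]
        linarith
      · rw [hv, Oct.N.F1.pt_add _ _ _ _ hal'.ne', mul_right_comm, mul_smul (r * sg (!l)) s]
        rw [smul_add s, smul_smul s, pole_true, smul_neg, mul_neg,
          mul_div_cancel₀ _ h0.ne', neg_smul]
  · rintro (⟨r, hr, hv⟩ | ⟨r, hr, t, ht, u, hu, hv⟩)
    · refine ⟨r, hr, (ct.col i).a, ⟨le_rfl, ?_⟩, 0, ⟨le_rfl, zero_le_one⟩, ?_⟩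
      · have : (ct.col i).a ≤ (ct.col i).b := by unfold Column.a Column.b; omega
        exact_mod_cast this
      · rw [hv, zero_smul, zero_add, sub_zero, one_smul, mul_smul, ← pole_eq']
    · have hw : 0 ≤ ((ct.col i).cb (ct.col i).fb).al * ((ct.col i).fb.lo - u) :=
        mul_nonneg hal'.le (by linarith)
      have hw1 : 0 < 1 + ((ct.col i).cb (ct.col i).fb).al * ((ct.col i).fb.lo - u) := by linarith
      refine ⟨r * (1 + ((ct.col i).cb (ct.col i).fb).al * ((ct.col i).fb.lo - u)),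
        mul_pos hr hw1, t, ht,
        (1 + ((ct.col i).cb (ct.col i).fb).al * ((ct.col i).fb.lo - u))⁻¹,
        ⟨by positivity, inv_le_one_of_one_le₀ (by linarith)⟩, ?_⟩
      have e1 : u = (ct.col i).fb.lo + (-(((ct.col i).cb (ct.col i).fb).al *
          ((ct.col i).fb.lo - u))) / ((ct.col i).cb (ct.col i).fb).al := by
        field_simp
        ring
      rw [hv]
      conv_lhs => rw [e1]
      rw [Oct.N.F1.pt_add _ _ _ _ hal'.ne', mul_right_comm, mul_smul (r * sg (!l))]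
      congr 1
      rw [smul_add, smul_smul, smul_smul, mul_inv_cancel₀ hw1.ne', one_smul, pole_true, smul_neg,
        neg_smul]
      congr 3
      field_simp
      ring

theorem F1.K_cover_half (x : V3) (hy : 0 ≤ x.1 1) (hxy : ¬ (x.1 0 = 0 ∧ x.1 1 = 0)) :
    (∃ i j, ct.Valid (Cell.box false i j) ∧ x ∈ ct.K (Cell.box false i j)) ∨
    (∃ i, i < ct.n ∧ x ∈ ct.K (Cell.top false i)) ∨ (∃ i, i < ct.n ∧ x ∈ ct.K (Cell.bot false i)) := by
  obtain ⟨i, hi, t, ht, r, hr, h0, h1⟩ := Oct.N.sector_cover h hy hxy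
  have hmem := Oct.N.col_pos h hi
  have ht' : t ∈ Icc (0 : ℝ) 1 := by
    have := ht
    simpa [Column.a, Column.b] using this
  have hs : sg (!false) = 1 := by simp [sg]
  -- the point in the chart of a box
  have hx : ∀ b : Box, (0 : ℝ) < b.al →
      x.1 = (r * sg (!false)) •
        ((ct.col i).cb b).pt t ((x.1 2 / r - evR b.be t) / b.al) := by
    intro b hb
    rw [Oct.N.F1.pt_of_height _ _ hb, hs, mul_one]
    funext k
    fin_cases k
    · simpa using h0
    · simpa using h1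
    · show x.1 2 = r * (x.1 2 / r)
      field_simp
  by_cases hH : (ct.col i).lb.lv (ct.col i).lb.hi t ≤ x.1 2 / r
  · right; left
    refine ⟨i, hi, (mem_top_iff h false hi x).2 (Or.inr ⟨r, hr, t, ht, _, ?_, hx _ (al_lb h hi)⟩)⟩
    rw [le_div_iff₀ (al_lb h hi)]
    unfold Box.lv at hH
    linarith
  · by_cases hL : x.1 2 / r ≤ (ct.col i).fb.lv (ct.col i).fb.lo t
    · right; right
      refine ⟨i, hi, (mem_bot_iff h false hi x).2
        (Or.inr ⟨r, hr, t, ht, _, ?_, hx _ (al_fb h hi)⟩)⟩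
      rw [div_le_iff₀ (al_fb h hi)]
      unfold Box.lv at hL
      linarith
    · left
      obtain ⟨j, hj, hj1, hj2⟩ := lv_find h hmem ht' (not_le.1 hL).le (not_le.1 hH).le
      have hb : (0 : ℝ) < ((ct.col i).box j).al := by
        exact_mod_cast (h.boxS _ hmem _ (V.box_mem hj)).2
      refine ⟨i, j, ⟨hi, hj⟩, r, hr, t, ht, _, ⟨?_, ?_⟩, hx _ hb⟩
      · rw [le_div_iff₀ hb]
        unfold Box.lv at hj1
        linarith
      · rw [div_le_iff₀ hb]
        unfold Box.lv at hj2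
        linarith

theorem K_cover (x : V3) : ∃ c, ct.Valid c ∧ x ∈ ct.K c := by
  by_cases hxy : x.1 0 = 0 ∧ x.1 1 = 0
  · have h2 : x.1 2 ≠ 0 := by
      intro h2
      apply x.2
      funext k
      fin_cases k
      · exact hxy.1
      · exact hxy.2
      · exact h2
    rcases lt_or_gt_of_ne h2 with hn | hp
    · refine ⟨Cell.pole true, trivial, -x.1 2, by linarith, ?_⟩
      funext k
      fin_cases k
      · simpa [pole] using hxy.1
      · simpa [pole] using hxy.2
      · simp [pole, sg]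
    · refine ⟨Cell.pole false, trivial, x.1 2, hp, ?_⟩
      funext k
      fin_cases k
      · simpa [pole] using hxy.1
      · simpa [pole] using hxy.2
      · simp [pole, sg]
  · rcases le_total 0 (x.1 1) with hy | hy
    · rcases F1.K_cover_half h x hy hxy with ⟨i, j, hv, hx⟩ | ⟨i, hi, hx⟩ | ⟨i, hi, hx⟩
      · exact ⟨_, hv, hx⟩
      · exact ⟨Cell.top false i, hi, hx⟩
      · exact ⟨Cell.bot false i, hi, hx⟩
    · have hxy' : ¬ ((negV x).1 0 = 0 ∧ (negV x).1 1 = 0) := by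
        rintro ⟨a, b⟩
        apply hxy
        have a' : -x.1 0 = 0 := a
        have b' : -x.1 1 = 0 := b
        exact ⟨neg_eq_zero.1 a', neg_eq_zero.1 b'⟩
      have hy' : 0 ≤ (negV x).1 1 := by
        show 0 ≤ -x.1 1
        linarith
      rcases F1.K_cover_half h (negV x) hy' hxy' with ⟨i, j, hv, hx⟩ | ⟨i, hi, hx⟩ | ⟨i, hi, hx⟩
      · exact ⟨Cell.box (!false) i j, hv, (K_inv_box h false i j x).2 hx⟩
      · exact ⟨Cell.top (!false) i, hi, (K_inv_top h false i x).2 hx⟩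
      · exact ⟨Cell.bot (!false) i, hi, (K_inv_bot h false i x).2 hx⟩

end F

end Oct.N
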