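import Pool.Agent.helper70.M8.P1
import Pool.Agent.helper70.M10.ChkC
import Pool.Agent.helper70.M10.P1

set_option autoImplicit false

/-!
# M10-I (helper94): ranks (port of M8/P4) and roots (port of M8/P5)

`rkCol_sound`, `roots_sound`.  Uses helper19/M10/P1 (regF_eq, blF_eq, segsF_eq).
-/

open Set

namespace Oct.N

open Oct

namespace RkAux

theorem mem_of_takeWhile {α : Type} {p : α → Bool} {L : List α} {x : α}
    (h : x ∈ L.takeWhile p) : x ∈ L := (List.takeWhile_prefix p).subset h

theorem mem_of_dropWhile {α : Type} {p : α → Bool} {L : List α} {x : α}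
    (h : x ∈ L.dropWhile p) : x ∈ L := (List.dropWhile_suffix p).subset h

theorem rkCol_get (rb0 rb1 rt0 rt1 : ℕ) : ∀ (bs : List Box) (ER EL EN EP : List Seg)
    (prev : Option Box), rkCol rb0 rb1 rt0 rt1 prev bs ER EL EN EP = true →
    ∀ j b, bs[j]? = some b →
    ∃ eR eL LN LP, ER[j]? = some eR ∧ EL[j]? = some eL ∧ (∀ e ∈ LN, e ∈ EN) ∧
      (∀ e ∈ LP, e ∈ EP) ∧
      rkBox rb0 rb1 rt0 rt1 (if j = 0 then prev else bs[j - 1]?) bs[j + 1]? b eR eL LN LP = true
  | [], _, _, _, _, _ => by
      intro _ j b hj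
      simp at hj
  | b :: bs, [], _, _, _, _ => by
      intro h
      simp [rkCol] at h
  | b :: bs, _ :: _, [], _, _, _ => by
      intro h
      simp [rkCol] at h
  | b :: bs, eR :: ER, eL :: EL, EN, EP, prev => by
      intro h j b' hj
      rw [rkCol] at h
      have h' := Bool.and_eq_true_iff.1 h
      obtain ⟨h1, h2⟩ := h'
      cases j with
      | zero =>
        have hb : b = b' := by simpa using hj
        subst hb
        refine ⟨eR, eL, (EN.dropWhile (fun e => ltZ e.hi eR.lo)).takeWhile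
          (fun e => leZ e.lo eR.hi), (EP.dropWhile (fun e => ltZ e.hi eL.lo)).takeWhile
          (fun e => leZ e.lo eL.hi), rfl, rfl, ?_, ?_, ?_⟩
        · intro e he
          exact mem_of_dropWhile (mem_of_takeWhile he)
        · intro e he
          exact mem_of_dropWhile (mem_of_takeWhile he)
        · have e1 : (b :: bs)[0 + 1]? = bs.head? := by simp [List.head?_eq_getElem?]
          rw [e1]
          exact h1
      | succ j =>
        have hj' : bs[j]? = some b' := by simpa using hj
        obtain ⟨eR', eL', LN, LP, g1, g2, g3, g4, g5⟩ :=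
          rkCol_get rb0 rb1 rt0 rt1 bs ER EL _ _ (some b) h2 j b' hj'
        refine ⟨eR', eL', LN, LP, by simpa using g1, by simpa using g2, ?_, ?_, ?_⟩
        · intro e he
          exact mem_of_dropWhile (g3 e he)
        · intro e he
          exact mem_of_dropWhile (g4 e he)
        · have e1 : (if j + 1 = 0 then prev else (b :: bs)[j + 1 - 1]?) =
              (if j = 0 then some b else bs[j - 1]?) := by
            rw [if_neg (Nat.succ_ne_zero j)]
            cases j with
            | zero => simp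
            | succ j => simp
          have e2 : (b :: bs)[j + 1 + 1]? = bs[j + 1]? := by simp
          rw [e1, e2]
          exact g5

theorem rkBox_rkF {rb0 rb1 rt0 rt1 : ℕ} {prev next : Option Box} {b : Box} {eR eL : Seg}
    {LN LP : List Seg} (h : rkBox rb0 rb1 rt0 rt1 prev next b eR eL LN LP = true) (l : Bool)
    (s : S3) (hs : b.Act s) :
    rkF (if l then rb1 else rb0) (if l then rt1 else rt0) prev next b eR eL LN LP l s = true := by
  unfold rkBox at h
  by_cases hty : b.ty = 0
  · have hs' := hs hty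
    rw [hty] at h
    simp only [Bool.and_eq_true] at h
    subst hs'
    cases l
    · exact h.1
    · exact h.2
  · obtain ⟨k, hk⟩ : ∃ k, b.ty = k + 1 := ⟨b.ty - 1, by omega⟩
    rw [hk] at h
    simp only [Bool.and_eq_true] at h
    obtain ⟨⟨⟨⟨⟨a1, a2⟩, a3⟩, a4⟩, a5⟩, a6⟩ := h
    cases s <;> cases l <;> simp_all

theorem nbF_pres {e : Seg} {L : List Seg} {lft : Bool} {l : Bool} {s : S3} {r : ℕ}
    (he : e.lo ≤ e.hi) (hL : ∀ e' ∈ L, e'.lo < e'.hi) (h : nbF e L lft l s r = true) :
    ∃ e' ∈ L, (if lft then Pres e e' s else Pres e' e s) ∧ e'.rk l s < r := by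
  unfold nbF at h
  rw [List.any_eq_true] at h
  obtain ⟨e', he', h⟩ := h
  simp only [Bool.and_eq_true] at h
  obtain ⟨⟨⟨h1, h2⟩, h3⟩, h4⟩ := h
  have r1 : e'.rk l s < r := by
    have := Nat.blt_eq (x := e'.rk l s) (y := r)
    exact this.mp h1
  have r2 := (leZ_iff _ _).1 h2
  have r3 := (leZ_iff _ _).1 h3
  have he'' := (hL e' he').le
  refine ⟨e', he', ?_, r1⟩
  cases lft
  · simp only [Bool.false_eq_true, if_false] at h4 ⊢
    rw [presF_eq he'' he r3 r2] at h4
    unfold Pres
    rcases hp : pres e' e with _ | ⟨p, n, z⟩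
    · rw [hp] at h4; simp at h4
    · rw [hp] at h4
      refine ⟨p, n, z, rfl, ?_⟩
      cases s <;> simpa using h4
  · simp only [if_true] at h4 ⊢
    rw [presF_eq he he'' r2 r3] at h4
    unfold Pres
    rcases hp : pres e e' with _ | ⟨p, n, z⟩
    · rw [hp] at h4; simp at h4
    · rw [hp] at h4
      refine ⟨p, n, z, rfl, ?_⟩
      cases s <;> simpa using h4

theorem colC_facts {g : Gl} {c : Column} (h : colC g c = true) :
    ∀ b ∈ c.bx, 0 < b.s ∧ 0 < b.al ∧ b.lab.natAbs ≤ g.par.length := by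
  unfold colC at h
  simp only [Bool.and_eq_true] at h
  obtain ⟨⟨⟨⟨⟨⟨a1, a2⟩, a3⟩, a4⟩, a5⟩, a6⟩, a7⟩ := h
  intro b hb
  have := List.all_eq_true.1 a4 b hb
  simp only [Bool.and_eq_true] at this
  obtain ⟨⟨⟨b1, b2⟩, b3⟩, b4⟩ := this
  exact ⟨(ltZ_iff _ _).1 b1, (ltZ_iff _ _).1 b2, Nat.ble_eq.mp b3⟩

theorem segOf_le {par : List ℕ} {s0 : Bool} {t m : ℤ} {right : Bool} {b : Box}
    (hm : 0 < m) (hal : 0 < b.al) (hs : 0 < b.s) :
    (segOf par s0 t m right b).lo ≤ (segOf par s0 t m right b).hi := by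
  show m * (b.al * b.lo + evI b.be t) ≤ m * (b.al * b.hi + evI b.be t)
  apply mul_le_mul_of_nonneg_left _ hm.le
  have : b.al * b.lo ≤ b.al * b.hi := by
    apply mul_le_mul_of_nonneg_left _ hal.le
    unfold Box.lo Box.hi
    omega
  omega

theorem getD_of_getElem? {L : List Box} {j : ℕ} {b : Box} (h : L[j]? = some b) :
    L.getD j box0 = b := by
  rw [List.getD_eq_getElem?_getD, h]; rfl

end RkAux

open RkAux

/-! ## [OCT-P4] ranks -/

theorem rkCol_sound {g : Gl} (hg : glOK g = true) {L : List Column}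
    (hL : ∀ c ∈ L, colC g c = true) {i : ℕ} (hi : i < L.length) {EN EP : List Seg} {m m' : ℤ}
    (hm : 0 < m) (hm' : 0 < m')
    (h1 : m = if i + 1 < (certOf g L).n then
        (((certOf g L).col i).scal ((certOf g L).col (i + 1))).1 else
        (((certOf g L).col i).scalS ((certOf g L).col 0)).1)
    (h2 : m' = if i = 0 then
        (((certOf g L).col ((certOf g L).n - 1)).scalS ((certOf g L).col i)).2 else
        (((certOf g L).col (i - 1)).scal ((certOf g L).col i)).2)
    (hN : EN = ((certOf g L).eN i).segs) (hP : EP = ((certOf g L).eP i).segs)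
    (hN' : ∀ e ∈ EN, e.lo < e.hi) (hP' : ∀ e ∈ EP, e.lo < e.hi)
    (h : rkCol ((certOf g L).col i).rb0 ((certOf g L).col i).rb1 ((certOf g L).col i).rt0
      ((certOf g L).col i).rt1 none ((certOf g L).col i).bx
      (segsF g ((certOf g L).col i) m true) (segsF g ((certOf g L).col i) m' false) EN EP = true) :
    ∀ j < ((certOf g L).col i).bx.length, ∀ l s, (((certOf g L).col i).box j).Act s →
      (certOf g L).BoxRank i j l s := by
  intro j hj l s hact
  have hmem : (certOf g L).col i ∈ L := by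
    unfold Cert.col certOf
    simp only
    rw [List.getD_eq_getElem _ _ hi]
    exact List.getElem_mem hi
  unfold Cert.BoxRank
  generalize hct : certOf g L = ct at *
  have hpar : ct.par = g.par := by rw [← hct]; rfl
  have hs0 : ct.s0 = g.s0 := by rw [← hct]; rfl
  generalize hcc : ct.col i = c at *
  have hcC := hL c hmem
  have hbx := colC_facts hcC
  have hget : c.bx[j]? = some (c.bx[j]) := List.getElem?_eq_getElem hj
  have hbox : c.box j = c.bx[j] := by
    unfold Column.box
    exact getD_of_getElem? hget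
  have hz : ∀ b ∈ c.bx, b.lab.natAbs ≤ g.par.length := fun b hb => (hbx b hb).2.2
  rw [segsF_eq hg hz, segsF_eq hg hz] at h
  simp only [if_true, Bool.false_eq_true, if_false] at h
  obtain ⟨eR, eL, LN, LP, g1, g2, g3, g4, g5⟩ := rkCol_get _ _ _ _ _ _ _ _ _ _ h j _ hget
  have hbs := (hbx _ (List.getElem_mem hj)).1
  have hal := (hbx _ (List.getElem_mem hj)).2.1
  have hR : eR = segOf ct.par ct.s0 c.b m true (c.box j) := by
    have : (edgeOf g.par g.s0 c c.b m true).segs[j]? =
        some (segOf ct.par ct.s0 c.b m true (c.box j)) := by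
      unfold edgeOf
      simp only [List.getElem?_map, hget, Option.map_some, hpar, hs0, hbox]
    rw [this] at g1
    exact (Option.some.inj g1).symm
  have hLe : eL = segOf ct.par ct.s0 c.a m' false (c.box j) := by
    have : (edgeOf g.par g.s0 c c.a m' false).segs[j]? =
        some (segOf ct.par ct.s0 c.a m' false (c.box j)) := by
      unfold edgeOf
      simp only [List.getElem?_map, hget, Option.map_some, hpar, hs0, hbox]
    rw [this] at g2
    exact (Option.some.inj g2).symm
  have hact' : (c.bx[j]).Act s := by rw [← hbox]; exact hact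
  have hF := rkBox_rkF g5 l s hact'
  unfold rkF at hF
  rw [← hbox] at hF
  simp only [Bool.or_eq_true] at hF
  rw [← hbox] at hbs hal
  rcases hF with (((hF | hF) | hF) | hF) | hF
  · left
    exact Nat.eq_of_beq_eq_true hF
  · right; left
    simp only [Bool.and_eq_true, decide_eq_true_eq] at hF
    obtain ⟨f1, f2⟩ := hF
    refine ⟨f1, ?_⟩
    by_cases hj0 : j = 0
    · left
      refine ⟨hj0, ?_⟩
      rw [if_pos hj0] at f2
      have f3 := Nat.blt_eq.mp f2
      unfold Column.rb
      exact f3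
    · right
      obtain ⟨k, hk⟩ : ∃ k, j = k + 1 := ⟨j - 1, by omega⟩
      refine ⟨k, hk, ?_⟩
      have hk' : k < c.bx.length := by omega
      have hgk : c.bx[k]? = some (c.bx[k]) := List.getElem?_eq_getElem hk'
      have e1 : (if j = 0 then none else c.bx[j - 1]?) = some (c.bx[k]) := by
        rw [if_neg hj0, hk, Nat.add_sub_cancel, hgk]
      rw [e1] at f2
      have f3 := Nat.blt_eq.mp f2
      have e2 : c.box k = c.bx[k] := by
        unfold Column.box
        exact getD_of_getElem? hgk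
      rw [e2]
      exact f3
  · right; right; left
    simp only [Bool.and_eq_true, decide_eq_true_eq] at hF
    obtain ⟨f1, f2⟩ := hF
    refine ⟨f1, ?_⟩
    by_cases hj1 : j + 1 < c.bx.length
    · right
      refine ⟨hj1, ?_⟩
      have hgk : c.bx[j + 1]? = some (c.bx[j + 1]) := List.getElem?_eq_getElem hj1
      rw [hgk] at f2
      have f3 := Nat.blt_eq.mp f2
      have e2 : c.box (j + 1) = c.bx[j + 1] := by
        unfold Column.box
        exact getD_of_getElem? hgk
      rw [e2]
      exact f3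
    · left
      refine ⟨by omega, ?_⟩
      have hgk : c.bx[j + 1]? = none := List.getElem?_eq_none (by omega)
      rw [hgk] at f2
      have f3 := Nat.blt_eq.mp f2
      unfold Column.rt
      exact f3
  · right; right; right; left
    have he : eR.lo ≤ eR.hi := by
      rw [hR]; exact segOf_le hm hal hbs
    obtain ⟨e', q1, q2, q3⟩ := nbF_pres he (fun e' he' => hN' e' (g3 e' he')) hF
    left
    refine ⟨e', ?_, ?_, q3⟩
    · rw [← hN]; exact g3 e' q1
    · rw [← h1, ← hR]; exact q2
  · right; right; right; right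
    have he : eL.lo ≤ eL.hi := by
      rw [hLe]; exact segOf_le hm' hal hbs
    obtain ⟨e', q1, q2, q3⟩ := nbF_pres he (fun e' he' => hP' e' (g4 e' he')) hF
    left
    refine ⟨e', ?_, ?_, q3⟩
    · rw [← hP]; exact g4 e' q1
    · rw [← h2, ← hLe]; exact q2


namespace P5

theorem mem_rt1 {g : Gl} {i j : ℕ} {b : Box} {l : Bool} {s : S3}
    {acc : List (Cell × S3 × ℤ)} {r : Cell × S3 × ℤ} :
    r ∈ rt1 g i j b l s acc ↔
      (b.rk l s = 0 ∧ r = (Cell.box l i j, s, ls l (blF g b s))) ∨ r ∈ acc := by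
  unfold rt1
  by_cases h : b.rk l s = 0
  · simp [h]
  · have : Nat.beq (b.rk l s) 0 = false := by
      rw [← Bool.not_eq_true]
      simpa using h
    simp [this, h]

theorem mem_rootsBox {g : Gl} {i j : ℕ} {b : Box} {acc : List (Cell × S3 × ℤ)}
    {r : Cell × S3 × ℤ} :
    r ∈ rootsBox g i j b acc ↔
      (∃ l s, b.Act s ∧ b.rk l s = 0 ∧ r = (Cell.box l i j, s, ls l (blF g b s))) ∨ r ∈ acc := by
  unfold rootsBox
  split
  · rename_i h0
    simp only [mem_rt1]
    constructor
    · rintro (⟨h1, h2⟩ | ⟨h1, h2⟩ | h3)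
      · exact Or.inl ⟨false, _, fun _ => rfl, h1, h2⟩
      · exact Or.inl ⟨true, _, fun _ => rfl, h1, h2⟩
      · exact Or.inr h3
    · rintro (⟨l, s, ha, h1, h2⟩ | h3)
      · have hs := ha h0
        subst hs
        cases l
        · exact Or.inl ⟨h1, h2⟩
        · exact Or.inr (Or.inl ⟨h1, h2⟩)
      · exact Or.inr (Or.inr h3)
  · rename_i h0
    simp only [mem_rt1]
    have hact : ∀ s, b.Act s := fun s h => absurd h h0
    constructor
    · rintro (⟨h1, h2⟩ | ⟨h1, h2⟩ | ⟨h1, h2⟩ | ⟨h1, h2⟩ | ⟨h1, h2⟩ | ⟨h1, h2⟩ | h3)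
      · exact Or.inl ⟨_, _, hact _, h1, h2⟩
      · exact Or.inl ⟨_, _, hact _, h1, h2⟩
      · exact Or.inl ⟨_, _, hact _, h1, h2⟩
      · exact Or.inl ⟨_, _, hact _, h1, h2⟩
      · exact Or.inl ⟨_, _, hact _, h1, h2⟩
      · exact Or.inl ⟨_, _, hact _, h1, h2⟩
      · exact Or.inr h3
    · rintro (⟨l, s, ha, h1, h2⟩ | h3)
      · cases l <;> cases s <;> simp [h1, h2]
      · simp [h3]

theorem mem_rootsBs {g : Gl} {i : ℕ} {r : Cell × S3 × ℤ} (bs : List Box) (j : ℕ) :
    r ∈ rootsBs g i j bs ↔ ∃ k, ∃ b, bs[k]? = some b ∧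
      ∃ l s, b.Act s ∧ b.rk l s = 0 ∧ r = (Cell.box l i (j + k), s, ls l (blF g b s)) := by
  induction bs generalizing j with
  | nil => simp [rootsBs]
  | cons b bs ih =>
    rw [rootsBs, mem_rootsBox, ih]
    constructor
    · rintro (⟨l, s, h⟩ | ⟨k, b', hb, l, s, h⟩)
      · exact ⟨0, b, by simp, l, s, by simpa using h⟩
      · exact ⟨k + 1, b', by simpa using hb, l, s, by
          rw [show j + (k + 1) = j + 1 + k by omega]; exact h⟩
    · rintro ⟨k, b', hb, l, s, h⟩
      cases k with
      | zero =>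
        simp only [List.getElem?_cons_zero, Option.some.injEq] at hb
        subst hb
        exact Or.inl ⟨l, s, by simpa using h⟩
      | succ k =>
        exact Or.inr ⟨k, b', by simpa using hb, l, s, by
          rw [show j + 1 + k = j + (k + 1) by omega]; exact h⟩


theorem natBeq_zero (n : ℕ) : Nat.beq n 0 = true ↔ n = 0 := by
  simp

theorem mem_ite_list {α : Type*} {p : Prop} [Decidable p] {x r : α} :
    r ∈ (if p then [x] else []) ↔ p ∧ r = x := by
  by_cases h : p <;> simp [h]

theorem mem_rootsC {g : Gl} {i : ℕ} {c : Column} {r : Cell × S3 × ℤ} :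
    r ∈ rootsC g i c ↔
      (∃ l, c.rt l = 0 ∧ r = (Cell.top l i, S3.of g.sp, ls l g.pl)) ∨
      (∃ l, c.rb l = 0 ∧ r = (Cell.bot l i, S3.of g.sp, ls l (-g.pl))) ∨
      (∃ j, ∃ b, c.bx[j]? = some b ∧
        ∃ l s, b.Act s ∧ b.rk l s = 0 ∧ r = (Cell.box l i j, s, ls l (blF g b s))) := by
  unfold rootsC
  simp only [List.mem_append, mem_ite_list, natBeq_zero, mem_rootsBs, Nat.zero_add,
    negZ_eq]
  constructor
  · rintro ((((⟨h1, h2⟩ | ⟨h1, h2⟩) | ⟨h1, h2⟩) | ⟨h1, h2⟩) | h)
    · exact Or.inl ⟨false, by simpa [Column.rt] using h1, by simpa [ls] using h2⟩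
    · exact Or.inl ⟨true, by simpa [Column.rt] using h1, by simpa [ls] using h2⟩
    · exact Or.inr (Or.inl ⟨false, by simpa [Column.rb] using h1, by simpa [ls] using h2⟩)
    · exact Or.inr (Or.inl ⟨true, by simpa [Column.rb] using h1, by simpa [ls] using h2⟩)
    · exact Or.inr (Or.inr h)
  · rintro (⟨l, h1, h2⟩ | ⟨l, h1, h2⟩ | h)
    · cases l
      · exact Or.inl (Or.inl (Or.inl (Or.inl ⟨by simpa [Column.rt] using h1,
          by simpa [ls] using h2⟩)))
      · exact Or.inl (Or.inl (Or.inl (Or.inr ⟨by simpa [Column.rt] using h1,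
          by simpa [ls] using h2⟩)))
    · cases l
      · exact Or.inl (Or.inl (Or.inr ⟨by simpa [Column.rb] using h1,
          by simpa [ls] using h2⟩))
      · exact Or.inl (Or.inr ⟨by simpa [Column.rb] using h1, by simpa [ls] using h2⟩)
    · exact Or.inr h

theorem mem_rootsL {g : Gl} {r : Cell × S3 × ℤ} (L : List Column) (i : ℕ) :
    r ∈ rootsL g i L ↔ ∃ k c, L[k]? = some c ∧ r ∈ rootsC g (i + k) c := by
  induction L generalizing i with
  | nil => simp [rootsL]
  | cons c L ih =>
    rw [rootsL, List.mem_append, ih]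
    constructor
    · rintro (h | ⟨k, c', hc, h⟩)
      · exact ⟨0, c, by simp, h⟩
      · exact ⟨k + 1, c', by simpa using hc, by
          rw [show i + (k + 1) = i + 1 + k by omega]; exact h⟩
    · rintro ⟨k, c', hc, h⟩
      cases k with
      | zero =>
        simp only [List.getElem?_cons_zero, Option.some.injEq] at hc
        subst hc
        exact Or.inl h
      | succ k =>
        exact Or.inr ⟨k, c', by simpa using hc, by
          rw [show i + 1 + k = i + (k + 1) by omega]; exact h⟩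

theorem mem_rootsP {g : Gl} {r : Cell × S3 × ℤ} :
    r ∈ rootsP g ↔ ∃ l, (if l then g.rp1 else g.rp0) = 0 ∧
      r = (Cell.pole l, S3.of g.sp, ls l g.pl) := by
  unfold rootsP
  simp only [List.mem_append, mem_ite_list, natBeq_zero, negZ_eq]
  constructor
  · rintro (⟨h1, h2⟩ | ⟨h1, h2⟩)
    · exact ⟨false, by simpa using h1, by simpa [ls] using h2⟩
    · exact ⟨true, by simpa using h1, by simpa [ls] using h2⟩
  · rintro ⟨l, h1, h2⟩
    cases l
    · exact Or.inl ⟨by simpa using h1, by simpa [ls] using h2⟩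
    · exact Or.inr ⟨by simpa using h1, by simpa [ls] using h2⟩

theorem glOK_sp {g : Gl} (hg : glOK g = true) : g.sp = sgnR g.par g.s0 g.pl := by
  unfold glOK at hg
  simp only [Bool.and_eq_true] at hg
  exact beq_iff_eq.1 hg.1.1.1.1.1

theorem colC_lab {g : Gl} {c : Column} (h : colC g c = true) :
    ∀ b ∈ c.bx, b.lab.natAbs ≤ g.par.length := by
  unfold colC at h
  simp only [Bool.and_eq_true] at h
  have h1 := h.1.1.1.2
  intro b hb
  have h2 := List.all_eq_true.1 h1 b hb
  simp only [Bool.and_eq_true] at h2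
  exact Nat.le_of_ble_eq_true h2.1.2

theorem getElem?_getD {α : Type*} {l : List α} {i : ℕ} {x d : α} (h : l[i]? = some x) :
    l.getD i d = x ∧ i < l.length := by
  constructor
  · simp [List.getD, h]
  · exact (List.getElem?_eq_some_iff.1 h).1

theorem getElem?_of_lt {α : Type*} {l : List α} {i : ℕ} (d : α) (h : i < l.length) :
    l[i]? = some (l.getD i d) := by
  simp [List.getD, List.getElem?_eq_getElem h]

/-- the list of the parts of rank zero -/
theorem mem_roots {g : Gl} (hg : glOK g = true) {L : List Column}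
    (hL : ∀ c ∈ L, colC g c = true) {c : Cell} {s : S3} {k : ℤ} :
    (c, s, k) ∈ rootsP g ++ rootsL g 0 L ↔
      (certOf g L).Valid c ∧ (certOf g L).Act c s ∧ (certOf g L).crk c s = 0 ∧
        (certOf g L).clab c s = k := by
  have hsp : (certOf g L).sp = g.sp := (glOK_sp hg).symm
  rw [List.mem_append, mem_rootsP, mem_rootsL]
  simp only [mem_rootsC, Nat.zero_add]
  have hbl : ∀ {i : ℕ} {c : Column}, L[i]? = some c → ∀ {j : ℕ} {b : Box}, c.bx[j]? = some b →
      ∀ s, blF g b s = (certOf g L).bl b s := by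
    intro i c hc j b hb s
    exact blF_eq hg (colC_lab (hL c (List.mem_of_getElem? hc)) b
      (List.mem_of_getElem? hb)) L s
  constructor
  · rintro (⟨l, h1, h2⟩ | ⟨i, c', hc, ⟨l, h1, h2⟩ | ⟨l, h1, h2⟩ | ⟨j, b, hb, l, s', h0, h1, h2⟩⟩)
    · obtain ⟨rfl, rfl, rfl⟩ : c = Cell.pole l ∧ s = S3.of g.sp ∧ k = ls l g.pl := by
        simpa using h2
      exact ⟨trivial, by simp [Cert.Act, hsp], h1, rfl⟩
    · obtain ⟨rfl, rfl, rfl⟩ : c = Cell.top l i ∧ s = S3.of g.sp ∧ k = ls l g.pl := by
        simpa using h2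
      obtain ⟨hc1, hc2⟩ := getElem?_getD (d := col0) hc
      refine ⟨hc2, by simp [Cert.Act, hsp], ?_, rfl⟩
      change ((L.getD i col0)).rt l = 0
      rw [hc1]; exact h1
    · obtain ⟨rfl, rfl, rfl⟩ : c = Cell.bot l i ∧ s = S3.of g.sp ∧ k = ls l (-g.pl) := by
        simpa using h2
      obtain ⟨hc1, hc2⟩ := getElem?_getD (d := col0) hc
      refine ⟨hc2, by simp [Cert.Act, hsp], ?_, rfl⟩
      change ((L.getD i col0)).rb l = 0
      rw [hc1]; exact h1
    · obtain ⟨rfl, rfl, rfl⟩ : c = Cell.box l i j ∧ s = s' ∧ k = ls l (blF g b s') := by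
        simpa using h2
      obtain ⟨hc1, hc2⟩ := getElem?_getD (d := col0) hc
      obtain ⟨hb1, hb2⟩ := getElem?_getD (d := box0) hb
      have hcol : (certOf g L).col i = c' := hc1
      have hbox : ((certOf g L).col i).box j = b := by rw [hcol]; exact hb1
      refine ⟨⟨hc2, by rw [hcol]; exact hb2⟩, ?_, ?_, ?_⟩
      · change (((certOf g L).col i).box j).Act s
        rw [hbox]; exact h0
      · change (((certOf g L).col i).box j).rk l s = 0
        rw [hbox]; exact h1
      · change ls l ((certOf g L).bl (((certOf g L).col i).box j) s) = _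
        rw [hbox, hbl hc hb]
  · rintro ⟨hv, ha, hr, rfl⟩
    match c, hv, ha, hr with
    | Cell.box l i j, hv, ha, hr =>
      refine Or.inr ⟨i, (certOf g L).col i, getElem?_of_lt col0 hv.1, Or.inr (Or.inr
        ⟨j, ((certOf g L).col i).box j, getElem?_of_lt box0 hv.2, l, s, ha, hr, ?_⟩)⟩
      have hh := hbl (getElem?_of_lt col0 hv.1) (getElem?_of_lt box0 hv.2) s
      change _ = (Cell.box l i j, s, ls l (blF g ((L.getD i col0).bx.getD j box0) s))
      rw [hh]
      rfl
    | Cell.top l i, hv, ha, hr =>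
      have ha' : s = S3.of g.sp := by rw [← hsp]; exact ha
      subst ha'
      exact Or.inr ⟨i, (certOf g L).col i, getElem?_of_lt col0 hv, Or.inl ⟨l, hr, rfl⟩⟩
    | Cell.bot l i, hv, ha, hr =>
      have ha' : s = S3.of g.sp := by rw [← hsp]; exact ha
      subst ha'
      exact Or.inr ⟨i, (certOf g L).col i, getElem?_of_lt col0 hv,
        Or.inr (Or.inl ⟨l, hr, rfl⟩)⟩
    | Cell.pole l, hv, ha, hr =>
      have ha' : s = S3.of g.sp := by rw [← hsp]; exact ha
      subst ha'
      exact Or.inl ⟨l, hr, rfl⟩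

end P5

open P5 in
/-- [OCT-P5] -/
theorem roots_sound {g : Gl} (hg : glOK g = true) {L : List Column}
    (hL : ∀ c ∈ L, colC g c = true) (h : rootsOK g (rootsP g ++ rootsL g 0 L) = true) :
    (∀ c c' s s', (certOf g L).Valid c → (certOf g L).Valid c' → (certOf g L).Act c s →
      (certOf g L).Act c' s' → (certOf g L).crk c s = 0 → (certOf g L).crk c' s' = 0 →
      (s = S3.z ↔ s' = S3.z) → (certOf g L).clab c s = (certOf g L).clab c' s' →
      c = c' ∧ s = s') ∧
    ∀ o : ℤ, o ≠ 0 → o.natAbs ≤ (certOf g L).m →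
      ∃ c, (certOf g L).Valid c ∧ (certOf g L).Act c S3.z ∧ (certOf g L).clab c S3.z = o := by
  unfold rootsOK at h
  rw [Bool.and_eq_true] at h
  obtain ⟨h1, h2⟩ := h
  have h1' := of_decide_eq_true h1
  rw [List.all_eq_true] at h2
  constructor
  · intro c c' s s' hv hv' ha ha' hr hr' hz hl
    have m1 := (mem_roots hg hL).2 ⟨hv, ha, hr, rfl⟩
    have m2 := (mem_roots hg hL).2 ⟨hv', ha', hr', rfl⟩
    have := List.inj_on_of_nodup_map h1' m1 m2 (by simp [keyR, hz, hl])
    simp only [Prod.mk.injEq] at this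
    exact ⟨this.1, this.2.1⟩
  · intro o ho hm
    obtain ⟨n, hn, hon⟩ : ∃ n < g.par.length, o = ((n + 1 : ℕ) : ℤ) ∨ o = -((n + 1 : ℕ) : ℤ) := by
      have hm' : o.natAbs ≤ g.par.length := hm
      refine ⟨o.natAbs - 1, by omega, by omega⟩
    have h3 := h2 n (List.mem_range.2 hn)
    rw [Bool.and_eq_true, List.any_eq_true, List.any_eq_true] at h3
    obtain ⟨⟨⟨c1, s1, k1⟩, m1, e1⟩, ⟨⟨c2, s2, k2⟩, m2, e2⟩⟩ := h3
    have e1' := of_decide_eq_true e1
    have e2' := of_decide_eq_true e2
    simp only at e1' e2'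
    obtain ⟨rfl, rfl⟩ := e1'
    obtain ⟨rfl, rfl⟩ := e2'
    obtain ⟨v1, a1, -, l1⟩ := (mem_roots hg hL).1 m1
    obtain ⟨v2, a2, -, l2⟩ := (mem_roots hg hL).1 m2
    rcases hon with rfl | rfl
    · exact ⟨c1, v1, a1, l1⟩
    · exact ⟨c2, v2, a2, l2⟩


end Oct.N
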