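import Pool.Agent.helper70.M8.Chk
import Pool.Agent.helper70.M9.Rows
import Pool.Agent.helper70.M10.Defs
import Pool.Agent.helper70.M10.ChkG

set_option autoImplicit false

/-!
# Meaning of the direct evaluation: polynomials and tables
-/

open MvPolynomial Set

namespace Oct.N

open Oct

/-! ## the polynomial -/

/-- `∑ᵢ l[i] xⁱ y^(n-i)` -/
noncomputable def polyForm : ℕ → List ℤ → MvPolynomial (Fin 3) ℝ
  | _, [] => 0
  | 0, c :: _ => C (c : ℝ)
  | n + 1, c :: l => C (c : ℝ) * X 1 ^ (n + 1) + X 0 * polyForm n l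

/-- `∑ₖ zᵏ fm[k](x,y)`, `fm[k]` form of degree `n - k` -/
noncomputable def polyF : ℕ → List (List ℤ) → MvPolynomial (Fin 3) ℝ
  | _, [] => 0
  | 0, l :: _ => polyForm 0 l
  | n + 1, l :: L => polyForm (n + 1) l + X 2 * polyF n L

/-! ## the tables of `F (pt t u)`; the functions on lists of coefficients (polynomials in `t`)
correspond to the functions of `ChkG` -/

/-- `[Yⁿ, ..., Y, 1]` -/
def pwL (Y : List ℤ) : ℕ → List (List ℤ)
  | 0 => [[1]]
  | n + 1 => mulP Y ((pwL Y n).headD []) :: pwL Y n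

/-- `∑ᵢ l[i] Xⁱ P[i]` -/
def formL (X : List ℤ) : List ℤ → List (List ℤ) → List ℤ
  | c :: l, p :: P => addP (smulP c p) (mulP (formL X l P) X)
  | _, _ => []

/-- forms of degree `d, d - 1, ...` -/
def formsL (X : List ℤ) : List (List ℤ) → List (List ℤ) → List (List ℤ)
  | l :: fm, p :: P => formL X l (p :: P) :: formsL X fm P
  | _, _ => []

/-- one step of the translation: `c + (u + b) M` -/
def stL (b : List ℤ) : List (List ℤ) → List ℤ → List (List ℤ)
  | [], c => [c]
  | m :: M, c => addP c (mulP b m) :: stL b M m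

/-- translation `u ↦ u + b` -/
def shL (b : List ℤ) : List (List ℤ) → List (List ℤ)
  | [] => []
  | c :: L => stL b (shL b L) c

/-- `u ↦ a u`, everything times `p` -/
def scL (a : ℤ) : List (List ℤ) → ℤ → List (List ℤ)
  | [], _ => []
  | x :: L, p => smulP p x :: scL a L (p * a)

/-- table of `F (pt t u)` -/
def tabV (fm : List (List ℤ)) (ch : Chart) : List (List ℤ) :=
  scL ch.al (shL ch.be (formsL [ch.x0, ch.x1] fm (pwL [ch.y0, ch.y1] 8))) 1

/-- table of `∂/∂t (F (pt t u))` -/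
def tabT (t : Tabs) (ch : Chart) : List (List ℤ) :=
  scL ch.al (shL ch.be
    (addT ((formsL [ch.x0, ch.x1] t.fx (pwL [ch.y0, ch.y1] 7)).map (smulP ch.x1))
      (addT ((formsL [ch.x0, ch.x1] t.fy (pwL [ch.y0, ch.y1] 7)).map (smulP ch.y1))
        ((formsL [ch.x0, ch.x1] t.fz (pwL [ch.y0, ch.y1] 7)).map (mulP (dbL 1 ch.be.tail)))))) 1

end Oct.N
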