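import Pool.Agent.helper70.M8.C1
import Pool.Agent.helper70.M8.J3b
import Pool.Agent.helper70.M8.J6
import Pool.Agent.helper70.M10.Tab

set_option autoImplicit false

/-!
# M10-R3: the polynomial of the tables, its composition with a chart and its derivative in `t`
-/

open MvPolynomial Set Filter Topology

namespace Oct.N

open Oct

/-! ### homogeneity -/

private theorem polyForm_homog (n : ℕ) (l : List ℤ) : (polyForm n l).IsHomogeneous n := by
  induction l generalizing n with
  | nil =>
    simp only [polyForm]
    exact isHomogeneous_zero _ _ _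
  | cons c l ih =>
    cases n with
    | zero =>
      simp only [polyForm]
      exact isHomogeneous_C _ _
    | succ n =>
      simp only [polyForm]
      refine IsHomogeneous.add ?_ ?_
      · have h := (isHomogeneous_C (Fin 3) (c : ℝ)).mul
          ((isHomogeneous_X ℝ (1 : Fin 3)).pow (n + 1))
        simpa using h
      · have h := (isHomogeneous_X ℝ (0 : Fin 3)).mul (ih n)
        rw [add_comm] at h
        exact h

theorem polyF_homog (n : ℕ) (fm : List (List ℤ)) : (polyF n fm).IsHomogeneous n := by
  induction fm generalizing n with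
  | nil =>
    simp only [polyF]
    exact isHomogeneous_zero _ _ _
  | cons l L ih =>
    cases n with
    | zero =>
      simp only [polyF]
      exact polyForm_homog 0 l
    | succ n =>
      simp only [polyF]
      refine IsHomogeneous.add (polyForm_homog (n + 1) l) ?_
      have h := (isHomogeneous_X ℝ (2 : Fin 3)).mul (ih n)
      rw [add_comm] at h
      exact h

/-! ### the pole -/

private theorem eval_pole_aux (n : ℕ) (L : List (List ℤ)) (h : L.length = n + 1) :
    eval ![0, 0, 1] (polyF n L) = (((L.getD n []).getD 0 0 : ℤ) : ℝ) := by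
  induction n generalizing L with
  | zero =>
    cases L with
    | nil => simp at h
    | cons l L =>
      cases l with
      | nil => simp [polyF, polyForm]
      | cons c l => simp [polyF, polyForm]
  | succ n ih =>
    cases L with
    | nil => simp at h
    | cons l L =>
      have h0 : eval (![0, 0, 1] : Fin 3 → ℝ) (polyForm (n + 1) l) = 0 := by
        cases l with
        | nil => simp [polyForm]
        | cons c l => simp [polyForm]
      have h1 : L.length = n + 1 := by simpa using h
      simp only [polyF, map_add, map_mul, h0, ih L h1, eval_X]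
      simp

theorem eval_pole {fm : List (List ℤ)} (h : fm.length = 9) :
    eval ![0, 0, 1] (polyF 8 fm) = (((fm.getD 8 []).getD 0 0 : ℤ) : ℝ) :=
  eval_pole_aux 8 fm h

/-! ### values of the tables -/

private theorem evT_scL (a : ℤ) (L : List (List ℤ)) (t u : ℝ) : ∀ p : ℤ,
    evT (scL a L p) t u = p * evT L t (a * u) := by
  induction L with
  | nil => intro p; simp [scL, evT_nil6]
  | cons x L ih =>
    intro p
    rw [scL, evT_cons6, evT_cons6, ih, evP_smulP6]
    push_cast
    ring

private theorem evT_stL (b : List ℤ) (M : List (List ℤ)) (t u : ℝ) : ∀ c : List ℤ,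
    evT (stL b M c) t u = evP c t + (u + evP b t) * evT M t u := by
  induction M with
  | nil => intro c; simp [stL, evT_nil6, evT_cons6]
  | cons m M ih =>
    intro c
    rw [stL, evT_cons6, evT_cons6, ih, evP_addP6, evP_mulP6]
    ring

private theorem evT_shL (b : List ℤ) (L : List (List ℤ)) (t u : ℝ) :
    evT (shL b L) t u = evT L t (u + evP b t) := by
  induction L with
  | nil => rfl
  | cons c L ih => rw [shL, evT_stL, ih, evT_cons6]

private theorem pwL_cons (Y : List ℤ) (n : ℕ) : ∃ p P, pwL Y n = p :: P := by
  cases n with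
  | zero => exact ⟨_, _, rfl⟩
  | succ n => exact ⟨_, _, rfl⟩

private theorem evP_head (Y : List ℤ) (t : ℝ) (n : ℕ) :
    evP ((pwL Y n).headD []) t = evP Y t ^ n := by
  induction n with
  | zero => simp [pwL, evP_cons6, evP_nil6]
  | succ n ih =>
    rw [pwL]
    simp only [List.headD_cons]
    rw [evP_mulP6, ih]
    ring

private theorem evP_formL (X Y : List ℤ) (t z : ℝ) (l : List ℤ) : ∀ n : ℕ,
    evP (formL X l (pwL Y n)) t = eval ![evP X t, evP Y t, z] (polyForm n l) := by
  induction l with
  | nil =>
    intro n
    obtain ⟨p, P, h⟩ := pwL_cons Y n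
    rw [h]
    simp [formL, polyForm, evP_nil6]
  | cons c l ih =>
    intro n
    cases n with
    | zero =>
      simp only [pwL, formL, polyForm, eval_C]
      rw [evP_addP6, evP_smulP6, evP_mulP6]
      simp [evP_cons6, evP_nil6]
    | succ n =>
      have h0 := evP_head Y t (n + 1)
      rw [pwL] at h0 ⊢
      simp only [List.headD_cons] at h0
      simp only [formL, polyForm, map_add, map_mul, map_pow, eval_C, eval_X]
      rw [evP_addP6, evP_smulP6, h0, evP_mulP6, ih]
      simp [mul_comm]

private theorem evT_formsL (X Y : List ℤ) (t z : ℝ) (fm : List (List ℤ)) : ∀ n : ℕ,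
    evT (formsL X fm (pwL Y n)) t z = eval ![evP X t, evP Y t, z] (polyF n fm) := by
  induction fm with
  | nil =>
    intro n
    obtain ⟨p, P, h⟩ := pwL_cons Y n
    rw [h]
    simp [formsL, polyF, evT_nil6]
  | cons l L ih =>
    intro n
    cases n with
    | zero =>
      have h1 := evP_formL X Y t z l 0
      rw [pwL] at h1 ⊢
      simp only [formsL, polyF]
      rw [evT_cons6, evT_nil6, h1]
      ring
    | succ n =>
      have h1 := evP_formL X Y t z l (n + 1)
      rw [pwL] at h1 ⊢
      simp only [formsL, polyF, map_add, map_mul, eval_X]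
      rw [evT_cons6, h1, ih]
      simp

private theorem evR_eq (l : List ℤ) (x : ℝ) : evR l x = evP l x := rfl

private theorem pt_eq (ch : Chart) (t u : ℝ) : ch.pt t u =
    ![evP [ch.x0, ch.x1] t, evP [ch.y0, ch.y1] t, ch.al * u + evP ch.be t] := by
  simp [Chart.pt, Chart.vx, Chart.vy, Chart.ber, evR_eq, evP_cons6, evP_nil6, mul_comm]

theorem evT_tabV {fm : List (List ℤ)} (ch : Chart) (hfm : fm.length = 9)
    (hl : lenOK 8 fm = true) (t u : ℝ) :
    eval (ch.pt t u) (polyF 8 fm) = evT (tabV fm ch) t u := by
  rw [tabV, evT_scL, evT_shL, evT_formsL, pt_eq]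
  simp

/-! ### derivatives of the polynomial -/

private theorem pderiv0_form_aux (l : List ℤ) : ∀ n k : ℕ,
    C (k : ℝ) * polyForm n l + X 0 * pderiv 0 (polyForm n l) = polyForm n (dbL k l) := by
  induction l with
  | nil => intro n k; simp [polyForm, dbL]
  | cons c l ih =>
    intro n k
    cases n with
    | zero =>
      simp only [polyForm, dbL, pderiv_C, mul_zero, add_zero]
      rw [← C_mul]
      push_cast
      rfl
    | succ n =>
      simp only [polyForm, dbL]
      rw [← ih n (k + 1)]
      simp only [map_add, Derivation.leibniz, smul_eq_mul, pderiv_C, mul_zero, add_zero,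
        Derivation.leibniz_pow, pderiv_X_self, mul_one]
      have h1 : pderiv (0 : Fin 3) (X 1 : MvPolynomial (Fin 3) ℝ) = 0 :=
        pderiv_X_of_ne (by decide)
      rw [h1]
      push_cast
      simp only [map_add, map_mul, C_1]
      simp only [smul_zero, mul_zero, zero_add]
      ring

private theorem pderiv0_form (n : ℕ) (l : List ℤ) :
    pderiv 0 (polyForm (n + 1) l) = polyForm n (dbL 1 l.tail) := by
  cases l with
  | nil => simp [polyForm, dbL]
  | cons c l =>
    have h := pderiv0_form_aux l n 1
    simp only [List.tail_cons]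
    rw [← h]
    simp only [polyForm]
    have h1 : pderiv (0 : Fin 3) (X 1 : MvPolynomial (Fin 3) ℝ) = 0 :=
      pderiv_X_of_ne (by decide)
    simp only [map_add, Derivation.leibniz, smul_eq_mul, pderiv_C, mul_zero, add_zero,
      Derivation.leibniz_pow, pderiv_X_self, mul_one, h1, smul_zero, zero_add]
    push_cast
    simp only [C_1]
    ring

private theorem pderiv1_form (l : List ℤ) : ∀ n : ℕ,
    pderiv 1 (polyForm (n + 1) l) = polyForm n (dyL (n + 1) l) := by
  induction l with
  | nil => intro n; simp [polyForm, dyL]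
  | cons c l ih =>
    intro n
    have h1 : pderiv (1 : Fin 3) (X 0 : MvPolynomial (Fin 3) ℝ) = 0 :=
      pderiv_X_of_ne (by decide)
    cases n with
    | zero =>
      have h2 : pderiv 1 (polyForm 0 l) = 0 := by
        cases l with
        | nil => simp [polyForm]
        | cons c l => simp [polyForm]
      simp only [polyForm, dyL, map_add, Derivation.leibniz, smul_eq_mul, pderiv_C, mul_zero,
        add_zero, h1, h2]
      simp
    | succ n =>
      rw [dyL]
      simp only [polyForm]
      rw [← ih n]
      simp only [polyForm, map_add, Derivation.leibniz, smul_eq_mul, pderiv_C, mul_zero, add_zero,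
        Derivation.leibniz_pow, pderiv_X_self, mul_one, h1]
      push_cast
      simp only [map_add, map_mul, C_1, add_tsub_cancel_right, nsmul_eq_mul]
      push_cast
      simp only [map_natCast]
      ring

private theorem pderiv2_form (l : List ℤ) : ∀ n : ℕ, pderiv 2 (polyForm n l) = 0 := by
  induction l with
  | nil => intro n; simp [polyForm]
  | cons c l ih =>
    intro n
    cases n with
    | zero => simp [polyForm]
    | succ n =>
      have h0 : pderiv (2 : Fin 3) (X 0 : MvPolynomial (Fin 3) ℝ) = 0 :=
        pderiv_X_of_ne (by decide)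
      have h1 : pderiv (2 : Fin 3) (X 1 : MvPolynomial (Fin 3) ℝ) = 0 :=
        pderiv_X_of_ne (by decide)
      simp only [polyForm, map_add, Derivation.leibniz, smul_eq_mul, pderiv_C,
        Derivation.leibniz_pow, h0, h1, ih n]
      simp

private theorem form_smul (l : List ℤ) (k : ℕ) : ∀ n : ℕ,
    polyForm n (l.map (fun c => (k : ℤ) * c)) = C (k : ℝ) * polyForm n l := by
  induction l with
  | nil => intro n; simp [polyForm]
  | cons c l ih =>
    intro n
    cases n with
    | zero =>
      simp only [List.map_cons, polyForm, ← C_mul]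
      push_cast
      rfl
    | succ n =>
      simp only [List.map_cons, polyForm, ih n]
      push_cast
      simp only [map_mul]
      ring

private theorem pderiv_F0 {i : Fin 3} (L : List (List ℤ)) : pderiv i (polyF 0 L) = 0 := by
  cases L with
  | nil => simp [polyF]
  | cons l L =>
    cases l with
    | nil => simp [polyF, polyForm]
    | cons c l => simp [polyF, polyForm]

private theorem pderiv0_F (L : List (List ℤ)) : ∀ n : ℕ,
    pderiv 0 (polyF (n + 1) L) = polyF n (dxT (n + 1) L) := by
  have h2 : pderiv (0 : Fin 3) (X 2 : MvPolynomial (Fin 3) ℝ) = 0 :=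
    pderiv_X_of_ne (by decide)
  induction L with
  | nil => intro n; simp [polyF, dxT]
  | cons l L ih =>
    intro n
    cases n with
    | zero =>
      rw [dxT]
      simp only [polyF, map_add, Derivation.leibniz, smul_eq_mul, h2, pderiv_F0, pderiv0_form]
      simp
    | succ n =>
      rw [dxT]
      simp only [polyF]
      rw [← ih n]
      simp only [polyF, map_add, Derivation.leibniz, smul_eq_mul, h2, pderiv0_form]
      ring

private theorem pderiv1_F (L : List (List ℤ)) : ∀ n : ℕ,
    pderiv 1 (polyF (n + 1) L) = polyF n (dyT (n + 1) L) := by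
  have h2 : pderiv (1 : Fin 3) (X 2 : MvPolynomial (Fin 3) ℝ) = 0 :=
    pderiv_X_of_ne (by decide)
  induction L with
  | nil => intro n; simp [polyF, dyT]
  | cons l L ih =>
    intro n
    cases n with
    | zero =>
      rw [dyT]
      simp only [polyF, map_add, Derivation.leibniz, smul_eq_mul, h2, pderiv_F0, pderiv1_form]
      simp
    | succ n =>
      rw [dyT]
      simp only [polyF]
      rw [← ih n]
      simp only [polyF, map_add, Derivation.leibniz, smul_eq_mul, h2, pderiv1_form]
      ring

private theorem pderiv2_F_aux (L : List (List ℤ)) : ∀ n k : ℕ,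
    C (k : ℝ) * polyF n L + X 2 * pderiv 2 (polyF n L) = polyF n (mkT k L) := by
  induction L with
  | nil => intro n k; simp [polyF, mkT]
  | cons l L ih =>
    intro n k
    cases n with
    | zero =>
      simp only [pderiv_F0, mul_zero, add_zero]
      simp only [polyF, mkT, form_smul]
    | succ n =>
      simp only [polyF, mkT]
      rw [form_smul, ← ih n (k + 1)]
      simp only [map_add, Derivation.leibniz, smul_eq_mul, pderiv2_form, pderiv_X_self]
      push_cast
      simp only [map_add, C_1]
      ring

private theorem pderiv2_F (n : ℕ) (L : List (List ℤ)) :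
    pderiv 2 (polyF (n + 1) L) = polyF n (mkT 1 L.tail) := by
  cases L with
  | nil => simp [polyF, mkT]
  | cons l L =>
    have h := pderiv2_F_aux L n 1
    simp only [List.tail_cons]
    rw [← h]
    simp only [polyF, map_add, Derivation.leibniz, smul_eq_mul, pderiv2_form, pderiv_X_self]
    push_cast
    simp only [C_1]
    ring

/-! ### the chain rule -/

private theorem dbL_eq (l : List ℤ) : ∀ k : ℕ, dbL k l = derP k l := by
  induction l with
  | nil => intro k; rfl
  | cons c l ih => intro k; rw [dbL, derP, ih]

private theorem eval_polT (l : List ℤ) (t u : ℝ) : eval ![t, u] (polT l) = evR l t := by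
  induction l with
  | nil => simp [polT, evR]
  | cons c l ih =>
    have h1 : polT (c :: l) = C (c : ℝ) + X 0 * polT l := rfl
    have h2 : evR (c :: l) t = (c : ℝ) + t * evR l t := rfl
    rw [h1, h2, map_add, map_mul, ih, eval_C, eval_X]
    simp

private theorem eval_pullR (F : MvPolynomial (Fin 3) ℝ) (c : Chart) (t u : ℝ) :
    eval ![t, u] (c.pull F) = eval (c.pt t u) F := by
  unfold Chart.pull
  rw [MvPolynomial.aeval_def, MvPolynomial.eval_eval₂]
  have h1 : (fun s => eval ![t, u] ((![C (c.x0 : ℝ) + C (c.x1 : ℝ) * X 0,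
      C (c.y0 : ℝ) + C (c.y1 : ℝ) * X 0,
      C (c.al : ℝ) * X 1 + polT c.be] :
        Fin 3 → MvPolynomial (Fin 2) ℝ) s)) = c.pt t u := by
    funext i
    fin_cases i
    · simp [Chart.pt, Chart.vx]
    · simp [Chart.pt, Chart.vy]
    · simp [Chart.pt, Chart.ber, eval_polT]
  have h2 : (eval ![t, u]).comp (algebraMap ℝ (MvPolynomial (Fin 2) ℝ)) = RingHom.id ℝ := by
    ext r
    simp
  rw [h1, h2]
  rfl

private theorem chain (ch : Chart) (F : MvPolynomial (Fin 3) ℝ) (x u : ℝ) :
    HasDerivAt (fun s => eval (ch.pt s u) F)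
      ((ch.x1 : ℝ) * eval (ch.pt x u) (pderiv 0 F) + ((ch.y1 : ℝ) * eval (ch.pt x u) (pderiv 1 F) +
        evP (dbL 1 ch.be.tail) x * eval (ch.pt x u) (pderiv 2 F))) x := by
  induction F using MvPolynomial.induction_on with
  | C a => simpa using hasDerivAt_const x a
  | add p q hp hq =>
    have h := hp.fun_add hq
    simp only [map_add]
    refine h.congr_deriv ?_
    ring
  | mul_X p i hp =>
    have hX : HasDerivAt (fun s : ℝ => eval (ch.pt s u) (X i : MvPolynomial (Fin 3) ℝ))
        ((ch.x1 : ℝ) * eval (ch.pt x u) (pderiv 0 (X i : MvPolynomial (Fin 3) ℝ)) +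
          ((ch.y1 : ℝ) * eval (ch.pt x u) (pderiv 1 (X i : MvPolynomial (Fin 3) ℝ)) +
          evP (dbL 1 ch.be.tail) x *
            eval (ch.pt x u) (pderiv 2 (X i : MvPolynomial (Fin 3) ℝ)))) x := by
      fin_cases i
      · have h1 : HasDerivAt (fun s : ℝ => (ch.x0 : ℝ) + ch.x1 * s) (ch.x1 : ℝ) x := by
          simpa using ((hasDerivAt_id' x).const_mul (ch.x1 : ℝ)).const_add (ch.x0 : ℝ)
        simpa [Chart.pt, Chart.vx, pderiv_X] using h1
      · have h1 : HasDerivAt (fun s : ℝ => (ch.y0 : ℝ) + ch.y1 * s) (ch.y1 : ℝ) x := by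
          simpa using ((hasDerivAt_id' x).const_mul (ch.y1 : ℝ)).const_add (ch.y0 : ℝ)
        simpa [Chart.pt, Chart.vy, pderiv_X] using h1
      · have h1 : HasDerivAt (fun s : ℝ => (ch.al : ℝ) * u + evP ch.be s)
            (evP (dbL 1 ch.be.tail) x) x := by
          rw [dbL_eq]
          exact (J3b_aux.hasDerivAt_evP ch.be x).const_add _
        simpa [Chart.pt, Chart.ber, evR_eq, pderiv_X] using h1
    have h := hp.fun_mul hX
    simp only [Derivation.leibniz, smul_eq_mul, map_add, map_mul] at h ⊢
    refine h.congr_deriv ?_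
    ring

private theorem evT_mapMul (p : List ℤ) (G : List (List ℤ)) (t u : ℝ) :
    evT (G.map (mulP p)) t u = evP p t * evT G t u := evT_mulPT6 p G t u

theorem evT_tabT {t : Tabs} (ch : Chart) (ht : tabsOK t = true) (x u : ℝ) :
    eval ![x, u] (pderiv 0 (ch.pull (polyF 8 t.fm))) = evT (tabT t ch) x u := by
  have h1 := hasDerivAt_fst (ch.pull (polyF 8 t.fm)) x u
  have h2 : (fun s => eval ![s, u] (ch.pull (polyF 8 t.fm))) =
      fun s => eval (ch.pt s u) (polyF 8 t.fm) := by
    funext s
    exact eval_pullR _ ch s u
  rw [h2] at h1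
  rw [h1.unique (chain ch (polyF 8 t.fm) x u)]
  unfold tabsOK at ht
  simp only [Bool.and_eq_true, decide_eq_true_eq] at ht
  obtain ⟨⟨⟨⟨⟨-, -⟩, hx⟩, hy⟩, hz⟩, -⟩ := ht
  rw [pderiv0_F, pderiv1_F, pderiv2_F]
  unfold tabT
  rw [evT_scL, evT_shL, evT_addT6, evT_addT6, evT_smul6, evT_smul6, evT_mapMul, evT_formsL,
    evT_formsL, evT_formsL, hx, hy, hz, pt_eq]
  simp

end Oct.N
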