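import Pool.Agent.helper70.M10.A
import Pool.Agent.helper70.M10.I
import Pool.Agent.helper70.M10.P6
import Pool.Agent.helper70.M10.R3
import Pool.Agent.helper70.M10.R4

set_option autoImplicit false

/-!
# From the integer certificate to the arrangement
-/

open MvPolynomial Set

namespace Oct.N

open Oct

/-- a piece of the analytic certificate -/
theorem ana_pieceN {t : Tabs} (ht : tabsOK t = true) {B M : ℕ} {sp : Bool}
    (hp : 0 < sg sp * (((t.fm.getD 8 []).getD 0 0 : ℤ) : ℝ)) {L : List GCol}
    (h : L.all (colN t B M sp) = true) :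
    ∀ c ∈ L.map GCol.col, ColOK (polyF 8 t.fm) sp c := by
  intro c hc
  obtain ⟨g, hg, rfl⟩ := List.mem_map.1 hc
  exact colN_sound ht hp (List.all_eq_true.1 h g hg)

/-- the final step: existence of a nonsingular polynomial with the arrangement -/
theorem final {fm : List (List ℤ)} {g : Gl}
    {L : List Column} (hg : glOK g = true) (hc : Comb (certOf g L))
    (ha : ∀ c ∈ L, ColOK (polyF 8 fm) g.sp c) :
    ∃ F : MvPolynomial (Fin 3) ℝ, F.IsHomogeneous 8 ∧ Nonsingular F ∧
      HasArrangement F g.par.length (nestOf g.par) := by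
  have hsp : (certOf g L).sp = g.sp := by
    simp only [glOK, Bool.and_eq_true, beq_iff_eq] at hg
    exact hg.1.1.1.1.1.symm
  obtain ⟨F, hF, hns, hA⟩ := perturb (polyF_homog 8 fm) (by norm_num) (sp := g.sp) (cols := L) ha
  refine ⟨F, hF, hns, ?_⟩
  have := main hc hF (by decide) (by rw [hsp]; exact hA)
  exact this

/-- concatenation of two checked pieces -/
theorem chkAll_cat {g : Gl} {p : Column} {A S : List Column} (hA : A ≠ []) (hS : S ≠ [])
    (h1 : chkAll g p (A ++ [S.getD 0 col0]) = true)
    (h2 : chkAll g (A.getLastD col0) S = true) : chkAll g p (A ++ S) = true := by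
  obtain ⟨s, S', rfl⟩ := List.exists_cons_of_ne_nil hS
  refine chkAll_append hA (by simpa using h1) ?_
  have : A.getLast hA = A.getLastD col0 := by
    rw [List.getLastD_eq_getLast?, List.getLast?_eq_getLast_of_ne_nil hA]
    rfl
  rw [this]
  exact h2

theorem rootsL_cat {g : Gl} {i j : ℕ} {A B : List Column} {R R' : List (Cell × S3 × ℤ)}
    (h1 : rootsL g i A = R) (hj : i + A.length = j) (h2 : rootsL g j B = R') :
    rootsL g i (A ++ B) = R ++ R' := by
  rw [rootsL_append, h1, hj, h2]

theorem forall_cat {α : Type} {P : α → Prop} {A B : List α} (h1 : ∀ c ∈ A, P c)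
    (h2 : ∀ c ∈ B, P c) : ∀ c ∈ A ++ B, P c := by
  intro c hc
  rcases List.mem_append.1 hc with h | h
  · exact h1 c h
  · exact h2 c h

end Oct.N
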